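import Pool.Agent.KS6_97.SV.Q

/-!
# Spectral variation of commuting tuples: the Gaussian mass outside a ball
-/

set_option autoImplicit false

namespace Pool.Agent.KS6_97.SV

open MeasureTheory

/-- the standard Gaussian probability of `|G| ≥ s` in `ℝ^K` -/
noncomputable def outer (K : ℕ) (s : ℝ) : ℝ :=
  (∫ v in {v : EuclideanSpace ℝ (Fin K) | s ≤ ‖v‖}, Real.exp (-‖v‖ ^ 2 / 2)) /
    ∫ v : EuclideanSpace ℝ (Fin K), Real.exp (-‖v‖ ^ 2 / 2)

theorem gs_half (K : ℕ) (v : EuclideanSpace ℝ (Fin K)) :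
    Real.exp (-‖v‖ ^ 2 / 2) = gs (1 / 2) v := by
  unfold gs; congr 1; ring

theorem outer_eq (K : ℕ) {s : ℝ} (hs : 0 < s) :
    gT (EuclideanSpace ℝ (Fin K)) s = outer K s * gZ (EuclideanSpace ℝ (Fin K)) s := by
  have h2s : (0 : ℝ) < 2 * s := by positivity
  have hm : MeasurableSet {v : EuclideanSpace ℝ (Fin K) | 1 / 2 ≤ ‖v‖} :=
    measurableSet_le measurable_const measurable_norm
  have hm' : MeasurableSet {v : EuclideanSpace ℝ (Fin K) | s ≤ ‖v‖} :=
    measurableSet_le measurable_const measurable_norm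
  have hgs : ∀ v : EuclideanSpace ℝ (Fin K), gs s v = gs (1 / 2) ((2 * s) • v) := by
    intro v; unfold gs; rw [norm_smul, Real.norm_eq_abs, abs_of_pos h2s]; congr 1; ring
  have h1 : gZ (EuclideanSpace ℝ (Fin K)) s
      = |((2 * s) ^ (Module.finrank ℝ (EuclideanSpace ℝ (Fin K))))⁻¹| *
        ∫ v : EuclideanSpace ℝ (Fin K), Real.exp (-‖v‖ ^ 2 / 2) := by
    unfold gZ
    simp only [hgs, gs_half]
    rw [Measure.integral_comp_smul volume (fun v : EuclideanSpace ℝ (Fin K) => gs (1 / 2) v) (2 * s),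
      smul_eq_mul]
  have h2 : gT (EuclideanSpace ℝ (Fin K)) s
      = |((2 * s) ^ (Module.finrank ℝ (EuclideanSpace ℝ (Fin K))))⁻¹| *
        ∫ v in {v : EuclideanSpace ℝ (Fin K) | s ≤ ‖v‖}, Real.exp (-‖v‖ ^ 2 / 2) := by
    unfold gT
    rw [← integral_indicator hm, ← integral_indicator hm']
    have : ∀ v : EuclideanSpace ℝ (Fin K),
        Set.indicator {v : EuclideanSpace ℝ (Fin K) | 1 / 2 ≤ ‖v‖} (fun v => gs s v) v
        = (fun w => Set.indicator {v : EuclideanSpace ℝ (Fin K) | s ≤ ‖v‖}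
          (fun v => Real.exp (-‖v‖ ^ 2 / 2)) w) ((2 * s) • v) := by
      intro v
      have hn : ‖(2 * s) • v‖ = 2 * s * ‖v‖ := by
        rw [norm_smul, Real.norm_eq_abs, abs_of_pos h2s]
      by_cases hv : (1 : ℝ) / 2 ≤ ‖v‖
      · have hv2 : s ≤ ‖(2 * s) • v‖ := by rw [hn]; nlinarith
        rw [Set.indicator_of_mem (show v ∈ {v : EuclideanSpace ℝ (Fin K) | 1 / 2 ≤ ‖v‖} from hv)]
        simp only
        rw [Set.indicator_of_mem
          (show (2 * s) • v ∈ {v : EuclideanSpace ℝ (Fin K) | s ≤ ‖v‖} from hv2), gs_half, hgs]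
      · have hv2 : ¬ s ≤ ‖(2 * s) • v‖ := by rw [hn]; push Not at hv ⊢; nlinarith
        rw [Set.indicator_of_notMem (show v ∉ {v : EuclideanSpace ℝ (Fin K) | 1 / 2 ≤ ‖v‖} from hv)]
        simp only
        rw [Set.indicator_of_notMem
          (show (2 * s) • v ∉ {v : EuclideanSpace ℝ (Fin K) | s ≤ ‖v‖} from hv2)]
    simp only [this]
    rw [Measure.integral_comp_smul volume (fun w : EuclideanSpace ℝ (Fin K) =>
      Set.indicator {v : EuclideanSpace ℝ (Fin K) | s ≤ ‖v‖} (fun v => Real.exp (-‖v‖ ^ 2 / 2)) w)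
      (2 * s), smul_eq_mul]
  have hpos : 0 < ∫ v : EuclideanSpace ℝ (Fin K), Real.exp (-‖v‖ ^ 2 / 2) := by
    have := gZ_pos (V := EuclideanSpace ℝ (Fin K)) (s := 1 / 2) (by norm_num)
    unfold gZ at this
    simpa only [gs_half] using this
  rw [h1, h2, outer, mul_left_comm, div_mul_cancel₀ _ hpos.ne']

theorem outer_pos_nonneg (K : ℕ) (s : ℝ) : 0 ≤ outer K s := by
  unfold outer
  exact div_nonneg (integral_nonneg fun v => (Real.exp_pos _).le)
    (integral_nonneg fun v => (Real.exp_pos _).le)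

/-- Gaussian concentration of the norm -/
theorem outer_le (K : ℕ) {u : ℝ} (hu : 0 ≤ u) :
    outer K (Real.sqrt K * (1 + u)) ≤ Real.exp (-(K * u ^ 2 / 2)) := by
  have hZ : 0 < ∫ v : EuclideanSpace ℝ (Fin K), Real.exp (-‖v‖ ^ 2 / 2) := by
    have := gZ_pos (V := EuclideanSpace ℝ (Fin K)) (s := 1 / 2) (by norm_num)
    unfold gZ at this
    simpa only [gs_half] using this
  have h1u : 0 < 1 + u := by linarith
  set c : ℝ := 1 / (2 * (1 + u) ^ 2) with hc
  have hc0 : 0 < c := by positivity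
  have hint : ∀ b : ℝ, 0 < b → Integrable (fun v : EuclideanSpace ℝ (Fin K) => Real.exp (-b * ‖v‖ ^ 2)) := by
    intro b hb
    have := gs_int (V := EuclideanSpace ℝ (Fin K)) (s := Real.sqrt (b / 2)) (Real.sqrt_pos.mpr (by positivity))
    refine this.congr (Filter.Eventually.of_forall fun v => ?_)
    simp only [gs]
    rw [Real.sq_sqrt (by positivity)]; congr 1; ring
  have hval : ∀ b : ℝ, 0 < b → ∫ v : EuclideanSpace ℝ (Fin K), Real.exp (-b * ‖v‖ ^ 2) = (Real.pi / b) ^ ((K : ℝ) / 2) := by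
    intro b hb
    rw [GaussianFourier.integral_rexp_neg_mul_sq_norm hb, finrank_euclideanSpace_fin]
  have hZv : ∫ v : EuclideanSpace ℝ (Fin K), Real.exp (-‖v‖ ^ 2 / 2) = (Real.pi / (1 / 2)) ^ ((K : ℝ) / 2) := by
    rw [← hval (1 / 2) (by norm_num)]
    congr 1; funext v; congr 1; ring
  have hm' : MeasurableSet {v : EuclideanSpace ℝ (Fin K) | Real.sqrt K * (1 + u) ≤ ‖v‖} :=
    measurableSet_le measurable_const measurable_norm
  -- Chernoff
  have hch : ∫ v in {v : EuclideanSpace ℝ (Fin K) | Real.sqrt K * (1 + u) ≤ ‖v‖}, Real.exp (-‖v‖ ^ 2 / 2)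
      ≤ Real.exp (-(1 / 2 - c) * (K * (1 + u) ^ 2)) * ∫ v : EuclideanSpace ℝ (Fin K), Real.exp (-c * ‖v‖ ^ 2) := by
    rw [← integral_indicator hm', ← integral_const_mul]
    have h12 : 0 ≤ 1 / 2 - c := by
      rw [hc, sub_nonneg, div_le_div_iff₀ (by positivity) (by norm_num)]
      nlinarith [sq_nonneg u]
    refine integral_mono (Integrable.indicator ?_ hm') ((hint c hc0).const_mul _) fun v => ?_
    · refine (hint (1 / 2) (by norm_num)).congr (Filter.Eventually.of_forall fun v => ?_)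
      simp only; congr 1; ring
    · simp only
      rw [← Real.exp_add]
      by_cases hv : Real.sqrt K * (1 + u) ≤ ‖v‖
      · rw [Set.indicator_of_mem (show v ∈ {v : EuclideanSpace ℝ (Fin K) | Real.sqrt K * (1 + u) ≤ ‖v‖} from hv)]
        apply Real.exp_le_exp.mpr
        have h1 : K * (1 + u) ^ 2 ≤ ‖v‖ ^ 2 := by
          have := pow_le_pow_left₀ (by positivity) hv 2
          rwa [mul_pow, Real.sq_sqrt (by positivity)] at this
        nlinarith [mul_le_mul_of_nonneg_left h1 h12]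
      · rw [Set.indicator_of_notMem (show v ∉ {v : EuclideanSpace ℝ (Fin K) | Real.sqrt K * (1 + u) ≤ ‖v‖} from hv)]
        positivity
  unfold outer
  rw [div_le_iff₀ hZ]
  refine hch.trans ?_
  rw [hval c hc0, hZv]
  have hcc : Real.pi / c = Real.pi / (1 / 2) * (1 + u) ^ 2 := by
    rw [hc]; field_simp
  rw [hcc, Real.mul_rpow (by positivity) (by positivity)]
  have h3 : ((1 + u) ^ 2) ^ ((K : ℝ) / 2) = Real.exp (K * Real.log (1 + u)) := by
    rw [← Real.rpow_natCast (1 + u) 2, ← Real.rpow_mul h1u.le, Real.rpow_def_of_pos h1u]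
    congr 1; push_cast; ring
  rw [h3]
  have h4 : Real.exp (-(1 / 2 - c) * (K * (1 + u) ^ 2)) * Real.exp (K * Real.log (1 + u))
      ≤ Real.exp (-(K * u ^ 2 / 2)) := by
    rw [← Real.exp_add]
    apply Real.exp_le_exp.mpr
    have h5 : Real.log (1 + u) ≤ u := by
      have := Real.log_le_sub_one_of_pos h1u; linarith
    have h6 : (K : ℝ) * Real.log (1 + u) ≤ K * u := mul_le_mul_of_nonneg_left h5 (by positivity)
    have h7 : c * (1 + u) ^ 2 = 1 / 2 := by rw [hc]; field_simp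
    have h8 : -(1 / 2 - c) * (K * (1 + u) ^ 2) = -(K * (1 + u) ^ 2 / 2) + K * (c * (1 + u) ^ 2) := by
      ring
    rw [h8, h7]
    nlinarith [h6]
  calc Real.exp (-(1 / 2 - c) * (K * (1 + u) ^ 2)) *
        ((Real.pi / (1 / 2)) ^ ((K : ℝ) / 2) * Real.exp (K * Real.log (1 + u)))
      = (Real.exp (-(1 / 2 - c) * (K * (1 + u) ^ 2)) * Real.exp (K * Real.log (1 + u))) *
        (Real.pi / (1 / 2)) ^ ((K : ℝ) / 2) := by ring
    _ ≤ _ := mul_le_mul_of_nonneg_right h4 (by positivity)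

end Pool.Agent.KS6_97.SV
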