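import Pool.Agent.KS6_97.SV.H
import Pool.Agent.KS6_97.SV.T

/-!
# Spectral variation of commuting tuples: the general bound for operators
-/

set_option autoImplicit false

namespace Pool.Agent.KS6_97.SV

open Finset Complex MeasureTheory
open scoped ComplexConjugate

section

variable {n K : ℕ}

/-- from all larger scales to the optimal scale -/
theorem attain (a b : Fin n → EuclideanSpace ℝ (Fin K)) (d : ℝ)
    (h : ∀ δ : ℝ, d < δ → ∃ σ : Equiv.Perm (Fin n), ∀ i, ‖a i - b (σ i)‖ < δ) :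
    ∃ σ : Equiv.Perm (Fin n), ∀ i, ‖a i - b (σ i)‖ ≤ d := by
  rcases isEmpty_or_nonempty (Fin n) with he | hne
  · exact ⟨1, fun i => (he.false i).elim⟩
  · obtain ⟨σ, -, hσ⟩ := Finset.exists_min_image (univ : Finset (Equiv.Perm (Fin n)))
      (fun σ => univ.sup' univ_nonempty fun i => ‖a i - b (σ i)‖) univ_nonempty
    refine ⟨σ, fun i => ?_⟩
    by_contra hlt
    push Not at hlt
    have h1 : d < univ.sup' univ_nonempty fun i => ‖a i - b (σ i)‖ :=
      hlt.trans_le (le_sup' (fun i => ‖a i - b (σ i)‖) (mem_univ i))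
    obtain ⟨τ, hτ⟩ := h _ h1
    have h2 := hσ τ (mem_univ _)
    have h3 : (univ.sup' univ_nonempty fun i => ‖a i - b (τ i)‖)
        < univ.sup' univ_nonempty fun i => ‖a i - b (σ i)‖ := by
      rw [Finset.sup'_lt_iff]
      exact fun i _ => hτ i
    exact absurd h2 (not_le.mpr h3)

/-- the general bound in the mixed bases -/
theorem match_gen (U : Fin n → Fin n → ℂ)
    (hU : ∀ j l, ∑ i, conj (U i j) * U i l = if j = l then 1 else 0)
    (a b : Fin n → EuclideanSpace ℝ (Fin K)) {ε s : ℝ} (hε0 : 0 ≤ ε) (hε : Bd U a b ε)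
    (hs : 0 < s) (hT : outer K s < 1 / 2) :
    ∃ σ : Equiv.Perm (Fin n), ∀ i, ‖a i - b (σ i)‖ ≤ s / (1 - 2 * outer K s) * ε := by
  have ht0 := outer_pos_nonneg K s
  set t := outer K s with ht
  have h12 : 0 < 1 - 2 * t := by linarith
  refine attain a b _ fun δ hδ => ?_
  have hδ0 : 0 < δ := lt_of_le_of_lt (by positivity) hδ
  have hδ2 : s * ε / δ < 1 - 2 * t := by
    rw [div_lt_iff₀ hδ0]
    have : s / (1 - 2 * t) * ε = s * ε / (1 - 2 * t) := by ring
    rw [this, div_lt_iff₀ h12] at hδ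
    linarith
  set t' := (t + (1 - s * ε / δ) / 2) / 2 with ht'
  have h1 : t < t' := by rw [ht']; linarith
  have h2 : s * (ε / δ) < 1 - 2 * t' := by
    rw [ht']; have : s * (ε / δ) = s * ε / δ := by ring
    rw [this]; linarith
  have h3 : t' ≤ 1 / 2 := by
    have : 0 ≤ s * ε / δ := by positivity
    rw [ht']; linarith
  have hZ := gZ_pos (V := EuclideanSpace ℝ (Fin K)) hs
  have hT' : gT (EuclideanSpace ℝ (Fin K)) s ≤ t' * gZ (EuclideanSpace ℝ (Fin K)) s := by
    rw [outer_eq K hs]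
    exact mul_le_mul_of_nonneg_right h1.le hZ.le
  have hB : Bd U (fun i => δ⁻¹ • a i) (fun i => δ⁻¹ • b i) (ε / δ) := by
    intro x
    have h := mul_le_mul_of_nonneg_left (hε x) (by positivity : 0 ≤ (δ⁻¹) ^ 2)
    have e1 : ∀ i J, ‖∑ j, (((δ⁻¹ • a i : EuclideanSpace ℝ (Fin K)) J
        - (δ⁻¹ • b j : EuclideanSpace ℝ (Fin K)) J : ℝ) : ℂ) * U i j * x j‖ ^ 2
        = (δ⁻¹) ^ 2 * ‖∑ j, ((a i J - b j J : ℝ) : ℂ) * U i j * x j‖ ^ 2 := by
      intro i J
      have : ∑ j, (((δ⁻¹ • a i : EuclideanSpace ℝ (Fin K)) J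
        - (δ⁻¹ • b j : EuclideanSpace ℝ (Fin K)) J : ℝ) : ℂ) * U i j * x j
        = ((δ⁻¹ : ℝ) : ℂ) * ∑ j, ((a i J - b j J : ℝ) : ℂ) * U i j * x j := by
        rw [Finset.mul_sum]
        refine Finset.sum_congr rfl fun j _ => ?_
        simp only [PiLp.smul_apply, smul_eq_mul]
        push_cast; ring
      rw [this, norm_mul, norm_real, mul_pow, Real.norm_eq_abs, sq_abs]
    simp only [e1]
    simp only [← Finset.mul_sum]
    refine h.trans (le_of_eq ?_)
    field_simp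
  obtain ⟨σ, hσ⟩ := match_one U hU (fun i => δ⁻¹ • a i) (fun i => δ⁻¹ • b i)
    (by positivity) hB hs (ht0.trans_lt h1) h3 hT' h2
  refine ⟨σ, fun i => ?_⟩
  have := hσ i
  rw [← smul_sub, norm_smul, Real.norm_eq_abs, abs_of_pos (inv_pos.mpr hδ0),
    inv_mul_lt_iff₀ hδ0, mul_one] at this
  exact this

/-- the coefficients of a change of orthonormal bases -/
theorem ortho (u w : OrthonormalBasis (Fin n) ℂ (EuclideanSpace ℂ (Fin n))) (j l : Fin n) :
    ∑ i, conj (inner ℂ (u i) (w j)) * inner ℂ (u i) (w l) = if j = l then 1 else 0 := by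
  have h := u.sum_inner_mul_inner (w j) (w l)
  have h2 : ∑ i, conj (inner ℂ (u i) (w j)) * inner ℂ (u i) (w l)
      = ∑ i, inner ℂ (w j) (u i) * inner ℂ (u i) (w l) :=
    Finset.sum_congr rfl fun i _ => by rw [inner_conj_symm]
  rw [h2, h]
  exact (orthonormal_iff_ite.mp w.orthonormal) j l

/-- the operators `D_J` in the mixed bases -/
theorem mixed (u w : OrthonormalBasis (Fin n) ℂ (EuclideanSpace ℂ (Fin n)))
    (D : EuclideanSpace ℂ (Fin n) →ₗ[ℂ] EuclideanSpace ℂ (Fin n)) (c : Fin n → Fin n → ℂ)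
    (hD : ∀ i j, inner ℂ (u i) (D (w j)) = c i j * inner ℂ (u i) (w j)) (x : Fin n → ℂ) :
    ∑ i, ‖∑ j, c i j * inner ℂ (u i) (w j) * x j‖ ^ 2 = ‖D (∑ j, x j • w j)‖ ^ 2 := by
  rw [← u.sum_sq_norm_inner_right (D (∑ j, x j • w j))]
  refine Finset.sum_congr rfl fun i _ => ?_
  congr 2
  rw [map_sum, inner_sum]
  refine Finset.sum_congr rfl fun j _ => ?_
  rw [map_smul, inner_smul_right, hD]; ring

theorem norm_comb (w : OrthonormalBasis (Fin n) ℂ (EuclideanSpace ℂ (Fin n))) (x : Fin n → ℂ) :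
    ‖∑ j, x j • w j‖ ^ 2 = ∑ j, ‖x j‖ ^ 2 := by
  rw [← w.sum_sq_norm_inner_right (∑ j, x j • w j)]
  refine Finset.sum_congr rfl fun i _ => ?_
  congr 2
  rw [inner_sum]
  simp only [inner_smul_right, orthonormal_iff_ite.mp w.orthonormal]
  simp

end

end Pool.Agent.KS6_97.SV
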