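import Pool.Graph.R_pool_sql_team_seeded_47a924f7.T6.H51.SV.Joint
import Pool.Agent.KS6_97.SV.M
import Pool.Agent.KS6_95.SV.KTwo

/-!
# Spectral variation of commuting tuples: the bounds for Mathlib's orthonormal bases
-/

set_option autoImplicit false

open scoped ENNReal

namespace Pool.Agent.KS6_97.SV.Full

/-- A `K`-tuple: pairwise commuting Hermitian complex `n × n` matrices `A 1, …, A K`. -/
structure IsTuple {K n : ℕ} (A : Fin K → Matrix (Fin n) (Fin n) ℂ) : Prop where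
  hermitian : ∀ J, (A J).IsHermitian
  commute : ∀ I J, A I * A J = A J * A I

/-- `α j ∈ ℝ^K` (`j = 1, …, n`) are the joint eigenvalues of `A`, listed with multiplicity: there is
an orthonormal basis `u` of `ℂ^n` with `A J (u j) = α j J • u j` for all `J` and `j`. -/
def IsJointSpectrum {K n : ℕ} (A : Fin K → Matrix (Fin n) (Fin n) ℂ)
    (α : Fin n → EuclideanSpace ℝ (Fin K)) : Prop :=
  ∃ u : OrthonormalBasis (Fin n) ℂ (EuclideanSpace ℂ (Fin n)),
    ∀ J j, Matrix.toEuclideanLin (A J) (u j) = (α j J : ℂ) • u j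

/-- The optimal matching distance `min_σ max_j |α j - β (σ j)|`, `σ` a permutation. -/
noncomputable def matchingDistance {K n : ℕ} (α β : Fin n → EuclideanSpace ℝ (Fin K)) : ℝ :=
  ⨅ σ : Equiv.Perm (Fin n), ⨆ j, ‖α j - β (σ j)‖

/-- `‖D‖`: the operator norm of the map `x ↦ (D 1 x, …, D K x)` from `ℂ^n` to `(ℂ^n)^K`, that is, the
least `c ≥ 0` with `(∑ J, ‖D J x‖²)^(1/2) ≤ c ‖x‖` for all `x ∈ ℂ^n`. -/
noncomputable def tupleNorm {K n : ℕ} (D : Fin K → Matrix (Fin n) (Fin n) ℂ) : ℝ :=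
  sInf {c : ℝ | 0 ≤ c ∧ ∀ x : EuclideanSpace ℂ (Fin n),
    Real.sqrt (∑ J, ‖Matrix.toEuclideanLin (D J) x‖ ^ 2) ≤ c * ‖x‖}

/-- `C` is a constant as in the problem: `δ(A, B) ≤ C ‖A - B‖` for all `n ≥ 1` and all `K`-tuples
`A`, `B` of `n × n` matrices. -/
def IsBound (K : ℕ) (C : ℝ≥0∞) : Prop :=
  ∀ (n : ℕ) (A B : Fin K → Matrix (Fin n) (Fin n) ℂ) (α β : Fin n → EuclideanSpace ℝ (Fin K)),
    1 ≤ n → IsTuple A → IsTuple B → IsJointSpectrum A α → IsJointSpectrum B β →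
    ENNReal.ofReal (matchingDistance α β) ≤ C * ENNReal.ofReal (tupleNorm (fun J => A J - B J))

/-- The constant `C_K`: the smallest `C` (possibly infinite) with `δ(A, B) ≤ C ‖A - B‖`. -/
noncomputable def spectralConstant (K : ℕ) : ℝ≥0∞ := sInf {C | IsBound K C}

/-- The probability of `|G| ≥ s` for a standard Gaussian vector `G` of `ℝ^K`. -/
noncomputable def gaussOutside (K : ℕ) (s : ℝ) : ℝ :=
  (∫ v in {v : EuclideanSpace ℝ (Fin K) | s ≤ ‖v‖}, Real.exp (-‖v‖ ^ 2 / 2)) /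
    ∫ v : EuclideanSpace ℝ (Fin K), Real.exp (-‖v‖ ^ 2 / 2)

/-- The bound `s / (1 - 2 P(|G| ≥ s))`. -/
noncomputable def gaussBound (K : ℕ) (s : ℝ) : ℝ := s / (1 - 2 * gaussOutside K s)

/-- The bound `(√K + √(2x)) / (1 - 2 e^{-x})`. -/
noncomputable def expBound (K : ℕ) (x : ℝ) : ℝ :=
  (Real.sqrt K + Real.sqrt (2 * x)) / (1 - 2 * Real.exp (-x))

/-- `C_K ≤ c`. -/
def ConstLe (K : ℕ) (c : ℝ) : Prop := spectralConstant K ≤ ENNReal.ofReal c

/-- `a j ∈ ℂ` (`j = 1, …, n`) are the eigenvalues of the normal matrix `M`, listed with multiplicity: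
there is an orthonormal basis `u` of `ℂ^n` with `M (u j) = a j • u j` for all `j`. -/
def IsNormalSpectrum {n : ℕ} (M : Matrix (Fin n) (Fin n) ℂ) (a : Fin n → ℂ) : Prop :=
  ∃ u : OrthonormalBasis (Fin n) ℂ (EuclideanSpace ℂ (Fin n)),
    ∀ j, Matrix.toEuclideanLin M (u j) = a j • u j

/-- The operator norm of a matrix for the Euclidean norm. -/
noncomputable def opNorm {n : ℕ} (M : Matrix (Fin n) (Fin n) ℂ) : ℝ :=
  ‖LinearMap.toContinuousLinearMap (Matrix.toEuclideanLin M)‖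

/-- The two lists can be matched with distances at most `r`. -/
def Matched {n : ℕ} {E : Type*} [NormedAddCommGroup E] (α β : Fin n → E) (r : ℝ) : Prop :=
  ∃ σ : Equiv.Perm (Fin n), ∀ j, ‖α j - β (σ j)‖ ≤ r

/-- For all `n`, the joint eigenvalues of any two `K`-tuples `A`, `B` of `n × n` matrices can be matched
with distances at most `c ‖A - B‖`. -/
def TupleBound (K : ℕ) (c : ℝ) : Prop :=
  ∀ (n : ℕ) (A B : Fin K → Matrix (Fin n) (Fin n) ℂ) (α β : Fin n → EuclideanSpace ℝ (Fin K)),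
    IsTuple A → IsTuple B → IsJointSpectrum A α → IsJointSpectrum B β →
    Matched α β (c * tupleNorm (fun J => A J - B J))

/-- For all `n`, the eigenvalues of any two normal `n × n` matrices `M`, `N` can be matched with
distances at most `c ‖M - N‖`. -/
def NormalBound (c : ℝ) : Prop :=
  ∀ (n : ℕ) (M N : Matrix (Fin n) (Fin n) ℂ) (a b : Fin n → ℂ),
    IsNormalSpectrum M a → IsNormalSpectrum N b → Matched a b (c * opNorm (M - N))

lemma tupleNorm_nonneg {K n : ℕ} (D : Fin K → Matrix (Fin n) (Fin n) ℂ) : 0 ≤ tupleNorm D :=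
  Real.sInf_nonneg fun _ hc => hc.1

lemma le_tupleNorm {K n : ℕ} (D : Fin K → Matrix (Fin n) (Fin n) ℂ)
    (x : EuclideanSpace ℂ (Fin n)) :
    Real.sqrt (∑ J, ‖Matrix.toEuclideanLin (D J) x‖ ^ 2) ≤ tupleNorm D * ‖x‖ := by
  have hne : {c : ℝ | 0 ≤ c ∧ ∀ x : EuclideanSpace ℂ (Fin n),
      Real.sqrt (∑ J, ‖Matrix.toEuclideanLin (D J) x‖ ^ 2) ≤ c * ‖x‖}.Nonempty := by
    refine ⟨Real.sqrt (∑ J, ‖LinearMap.toContinuousLinearMap (Matrix.toEuclideanLin (D J))‖ ^ 2),
      Real.sqrt_nonneg _, fun x => ?_⟩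
    rw [← Real.sqrt_sq (norm_nonneg x), ← Real.sqrt_mul (Finset.sum_nonneg fun _ _ => sq_nonneg _)]
    apply Real.sqrt_le_sqrt
    rw [Finset.sum_mul]
    refine Finset.sum_le_sum fun J _ => ?_
    rw [← mul_pow]
    exact pow_le_pow_left₀ (norm_nonneg _)
      ((LinearMap.toContinuousLinearMap (Matrix.toEuclideanLin (D J))).le_opNorm x) 2
  rcases eq_or_ne x 0 with rfl | hx
  · simp
  · have hx0 : 0 < ‖x‖ := norm_pos_iff.2 hx
    rw [← div_le_iff₀ hx0]
    apply le_csInf hne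
    rintro c ⟨_, hc⟩
    rw [div_le_iff₀ hx0]
    exact hc x

lemma le_tupleNorm_sq {K n : ℕ} (D : Fin K → Matrix (Fin n) (Fin n) ℂ)
    (x : EuclideanSpace ℂ (Fin n)) :
    ∑ J, ‖Matrix.toEuclideanLin (D J) x‖ ^ 2 ≤ (tupleNorm D) ^ 2 * ‖x‖ ^ 2 := by
  rw [← mul_pow, ← Real.sq_sqrt (Finset.sum_nonneg fun J _ => sq_nonneg _)]
  exact pow_le_pow_left₀ (Real.sqrt_nonneg _) (le_tupleNorm D x) 2

lemma exists_jointSpectrum {K n : ℕ} {A : Fin K → Matrix (Fin n) (Fin n) ℂ} (hA : IsTuple A) :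
    ∃ α, IsJointSpectrum A α := by
  have hsym : ∀ J, (Matrix.toEuclideanLin (A J)).IsSymmetric := fun J =>
    Matrix.isSymmetric_toEuclideanLin_iff.2 (hA.hermitian J)
  have hcomm : Pairwise (Function.onFun Commute fun J => Matrix.toEuclideanLin (A J)) := by
    intro I J _
    show Matrix.toEuclideanLin (A I) * Matrix.toEuclideanLin (A J) =
      Matrix.toEuclideanLin (A J) * Matrix.toEuclideanLin (A I)
    have h0 : ∀ (M N : Matrix (Fin n) (Fin n) ℂ) (x : EuclideanSpace ℂ (Fin n)),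
        Matrix.toEuclideanLin M (Matrix.toEuclideanLin N x) =
        Matrix.toEuclideanLin (M * N) x := by
      intro M N x
      show WithLp.toLp 2 (M.mulVec (N.mulVec x.ofLp)) = WithLp.toLp 2 ((M * N).mulVec x.ofLp)
      rw [Matrix.mulVec_mulVec]
    refine LinearMap.ext fun x => ?_
    rw [Module.End.mul_apply, Module.End.mul_apply, h0, h0, hA.commute]
  obtain ⟨u, χ, heig⟩ := Pool.Agent.T6.H51.SV.joint_basis (finrank_euclideanSpace_fin)
    (fun J => Matrix.toEuclideanLin (A J)) hsym hcomm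
  have hreal : ∀ j J, ((χ j J).re : ℂ) = χ j J := by
    intro j J
    have hne : u j ≠ 0 := by
      intro h0
      have := u.orthonormal.1 j
      rw [h0, norm_zero] at this
      exact zero_ne_one this
    have h1 := (hsym J).conj_eigenvalue_eq_self
      (Module.End.hasEigenvalue_of_hasEigenvector ⟨Module.End.mem_eigenspace_iff.2 (heig j J), hne⟩)
    exact Complex.conj_eq_iff_re.1 h1
  refine ⟨fun j => WithLp.toLp 2 (fun J => (χ j J).re), u, fun J j => ?_⟩
  have h2 : (((WithLp.toLp 2 (fun J => (χ j J).re) : EuclideanSpace ℝ (Fin K)) J : ℝ) : ℂ) = χ j J :=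
    hreal j J
  rw [h2]
  exact heig j J

/-- the entries of `A J - B J` in the mixed bases -/
lemma mixed_entry {K n : ℕ} {A B : Fin K → Matrix (Fin n) (Fin n) ℂ}
    {α β : Fin n → EuclideanSpace ℝ (Fin K)} (hA : IsTuple A)
    (u w : OrthonormalBasis (Fin n) ℂ (EuclideanSpace ℂ (Fin n)))
    (hu : ∀ J j, Matrix.toEuclideanLin (A J) (u j) = (α j J : ℂ) • u j)
    (hw : ∀ J j, Matrix.toEuclideanLin (B J) (w j) = (β j J : ℂ) • w j) (J : Fin K) (i j : Fin n) :
    inner ℂ (u i) (Matrix.toEuclideanLin (A J - B J) (w j))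
      = ((α i J - β j J : ℝ) : ℂ) * inner ℂ (u i) (w j) := by
  have hsym : (Matrix.toEuclideanLin (A J)).IsSymmetric :=
    Matrix.isSymmetric_toEuclideanLin_iff.2 (hA.hermitian J)
  rw [map_sub, LinearMap.sub_apply, inner_sub_right, hw, inner_smul_right, ← hsym, hu,
    inner_smul_left, Complex.conj_ofReal]
  push_cast; ring

open Pool.Agent.KS6_97.SV in
lemma general {K n : ℕ} (A B : Fin K → Matrix (Fin n) (Fin n) ℂ)
    (α β : Fin n → EuclideanSpace ℝ (Fin K)) (hA : IsTuple A)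
    (hα : IsJointSpectrum A α) (hβ : IsJointSpectrum B β) (s : ℝ) (hs : 0 < s)
    (hT : gaussOutside K s < 1 / 2) :
    ∃ σ : Equiv.Perm (Fin n), ∀ j,
      ‖α j - β (σ j)‖ ≤ s / (1 - 2 * gaussOutside K s) * tupleNorm (fun J => A J - B J) := by
  obtain ⟨u, hu⟩ := hα
  obtain ⟨w, hw⟩ := hβ
  refine match_gen (fun i j => inner ℂ (u i) (w j)) (ortho u w) α β
    (tupleNorm_nonneg (fun J => A J - B J)) ?_ hs hT
  intro x
  rw [Finset.sum_comm]
  have h1 : ∀ J, ∑ i, ‖∑ j, ((α i J - β j J : ℝ) : ℂ) * inner ℂ (u i) (w j) * x j‖ ^ 2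
      = ‖Matrix.toEuclideanLin (A J - B J) (∑ j, x j • w j)‖ ^ 2 := fun J =>
    mixed u w (Matrix.toEuclideanLin (A J - B J)) (fun i j => ((α i J - β j J : ℝ) : ℂ))
      (fun i j => mixed_entry hA u w hu hw J i j) x
  simp only [h1]
  have := le_tupleNorm_sq (fun J => A J - B J) (∑ j, x j • w j)
  rwa [norm_comb] at this

/-- from a matching to the constant -/
lemma const_le {K : ℕ} (c : ℝ) (hc : 0 ≤ c)
    (h : ∀ (n : ℕ) (A B : Fin K → Matrix (Fin n) (Fin n) ℂ)
      (α β : Fin n → EuclideanSpace ℝ (Fin K)), IsTuple A → IsTuple B → IsJointSpectrum A α →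
      IsJointSpectrum B β → ∃ σ : Equiv.Perm (Fin n), ∀ j,
        ‖α j - β (σ j)‖ ≤ c * tupleNorm (fun J => A J - B J)) :
    spectralConstant K ≤ ENNReal.ofReal c := by
  apply sInf_le
  intro n A B α β hn hA hB hα hβ
  obtain ⟨σ, hσ⟩ := h n A B α β hA hB hα hβ
  rw [← ENNReal.ofReal_mul hc]
  apply ENNReal.ofReal_le_ofReal
  unfold matchingDistance
  have hne : Nonempty (Fin n) := ⟨⟨0, hn⟩⟩
  refine (ciInf_le ⟨0, ?_⟩ σ).trans (ciSup_le hσ)
  rintro _ ⟨τ, rfl⟩
  exact Real.iSup_nonneg fun j => norm_nonneg _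

/-- the constant through the Gaussian mass -/
lemma const_gauss (K : ℕ) (s : ℝ) (hs : 0 < s) (hT : gaussOutside K s < 1 / 2) :
    spectralConstant K ≤ ENNReal.ofReal (s / (1 - 2 * gaussOutside K s)) :=
  const_le _ (div_nonneg hs.le (by linarith)) fun _ A B α β hA _ hα hβ =>
    general A B α β hA hα hβ s hs hT

open Pool.Agent.KS6_97.SV in
lemma const_explicit (K : ℕ) (hK : 1 ≤ K) (x : ℝ) (hx : Real.log 2 < x) :
    spectralConstant K
      ≤ ENNReal.ofReal ((Real.sqrt K + Real.sqrt (2 * x)) / (1 - 2 * Real.exp (-x))) := by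
  have hx0 : 0 < x := (Real.log_pos (by norm_num)).trans hx
  have hK0 : (0 : ℝ) < K := by exact_mod_cast hK
  have hsK : 0 < Real.sqrt K := Real.sqrt_pos.mpr hK0
  set u := Real.sqrt (2 * x) / Real.sqrt K with hu
  have hu0 : 0 ≤ u := by positivity
  have hs : Real.sqrt K * (1 + u) = Real.sqrt K + Real.sqrt (2 * x) := by
    rw [hu]; field_simp
  have hu2 : K * u ^ 2 / 2 = x := by
    rw [hu, div_pow, Real.sq_sqrt (by positivity), Real.sq_sqrt hK0.le]; field_simp
  have hO : gaussOutside K (Real.sqrt K + Real.sqrt (2 * x)) ≤ Real.exp (-x) := by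
    have := outer_le K hu0
    rw [hs, hu2] at this
    exact this
  have he : Real.exp (-x) < 1 / 2 := by
    rw [show (1 / 2 : ℝ) = Real.exp (-Real.log 2) by
      rw [Real.exp_neg, Real.exp_log (by norm_num)]; norm_num]
    exact Real.exp_lt_exp.mpr (by linarith)
  refine (const_gauss K _ (by positivity) (hO.trans_lt he)).trans (ENNReal.ofReal_le_ofReal ?_)
  exact div_le_div_of_nonneg_left (by positivity) (by linarith) (by linarith)

open Pool.Agent.KS6_97.SV in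
lemma unitary_mem {n : ℕ} (u w : OrthonormalBasis (Fin n) ℂ (EuclideanSpace ℂ (Fin n))) :
    (Matrix.of fun i j => inner ℂ (u i) (w j)) ∈ Matrix.unitaryGroup (Fin n) ℂ := by
  rw [Matrix.mem_unitaryGroup_iff']
  ext j l
  rw [Matrix.mul_apply]
  simp only [Matrix.star_apply, Matrix.of_apply, Matrix.one_apply]
  exact ortho u w j l

open Pool.Agent.KS6_97.SV in
/-- pairs of Hermitian matrices -/
lemma pairs {n : ℕ} (A B : Fin 2 → Matrix (Fin n) (Fin n) ℂ)
    (α β : Fin n → EuclideanSpace ℝ (Fin 2)) (hA : IsTuple A)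
    (hα : IsJointSpectrum A α) (hβ : IsJointSpectrum B β) :
    ∃ σ : Equiv.Perm (Fin n), ∀ j,
      ‖α j - β (σ j)‖ ≤ 9 / 4 * tupleNorm (fun J => A J - B J) := by
  obtain ⟨u, hu⟩ := hα
  obtain ⟨w, hw⟩ := hβ
  set ε := tupleNorm (fun J => A J - B J) with hε
  obtain ⟨σ, hσ⟩ := Pool.Agent.KS6_95.SV.k2 (Matrix.of fun i j => inner ℂ (u i) (w j))
    (unitary_mem u w) (fun i => (⟨α i 0, α i 1⟩ : ℂ)) (fun i => (⟨β i 0, β i 1⟩ : ℂ)) ε
    (tupleNorm_nonneg _) (by
      intro z x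
      set ξ := ∑ j, x j • w j with hξ
      have h1 := mixed u w ((z.re : ℂ) • Matrix.toEuclideanLin (A 0 - B 0)
          + (z.im : ℂ) • Matrix.toEuclideanLin (A 1 - B 1))
        (fun i j => (((starRingEnd ℂ) z * ((⟨α i 0, α i 1⟩ : ℂ) - (⟨β j 0, β j 1⟩ : ℂ))).re : ℂ))
        (fun i j => by
          rw [LinearMap.add_apply, LinearMap.smul_apply, LinearMap.smul_apply, inner_add_right,
            inner_smul_right, inner_smul_right, mixed_entry hA u w hu hw, mixed_entry hA u w hu hw]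
          simp only [Complex.mul_re, Complex.conj_re, Complex.conj_im, Complex.sub_re,
            Complex.sub_im]
          push_cast; ring) x
      simp only [Matrix.of_apply]
      rw [h1, ← norm_comb w x, ← hξ]
      have h2 := le_tupleNorm_sq (fun J => A J - B J) ξ
      rw [Fin.sum_univ_two] at h2
      set p := ‖Matrix.toEuclideanLin (A 0 - B 0) ξ‖ with hp
      set q := ‖Matrix.toEuclideanLin (A 1 - B 1) ξ‖ with hq
      have hp0 : 0 ≤ p := norm_nonneg _
      have hq0 : 0 ≤ q := norm_nonneg _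
      have h3 : ‖((z.re : ℂ) • Matrix.toEuclideanLin (A 0 - B 0)
          + (z.im : ℂ) • Matrix.toEuclideanLin (A 1 - B 1)) ξ‖ ≤ |z.re| * p + |z.im| * q := by
        rw [LinearMap.add_apply, LinearMap.smul_apply, LinearMap.smul_apply]
        refine (norm_add_le _ _).trans ?_
        rw [norm_smul, norm_smul, Complex.norm_real, Complex.norm_real, Real.norm_eq_abs,
          Real.norm_eq_abs]
      have h4 : (|z.re| * p + |z.im| * q) ^ 2 ≤ ‖z‖ ^ 2 * (p ^ 2 + q ^ 2) := by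
        rw [← Complex.normSq_eq_norm_sq, Complex.normSq_apply, ← abs_mul_abs_self z.re,
          ← abs_mul_abs_self z.im]
        nlinarith [sq_nonneg (|z.re| * q - |z.im| * p)]
      calc ‖((z.re : ℂ) • Matrix.toEuclideanLin (A 0 - B 0)
          + (z.im : ℂ) • Matrix.toEuclideanLin (A 1 - B 1)) ξ‖ ^ 2
          ≤ (|z.re| * p + |z.im| * q) ^ 2 := pow_le_pow_left₀ (norm_nonneg _) h3 2
        _ ≤ ‖z‖ ^ 2 * (p ^ 2 + q ^ 2) := h4
        _ ≤ ‖z‖ ^ 2 * (ε ^ 2 * ‖ξ‖ ^ 2) := mul_le_mul_of_nonneg_left h2 (by positivity)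
        _ = _ := by ring)
  refine ⟨σ, fun j => ?_⟩
  refine le_trans (le_of_eq ?_) (hσ j)
  rw [EuclideanSpace.norm_eq, Fin.sum_univ_two, Complex.norm_def, Complex.normSq_apply]
  congr 1
  simp only [PiLp.sub_apply, Real.norm_eq_abs, sq_abs, Complex.sub_re, Complex.sub_im]
  ring

lemma diag_inner {n : ℕ} (w : OrthonormalBasis (Fin n) ℂ (EuclideanSpace ℂ (Fin n)))
    (T : EuclideanSpace ℂ (Fin n) →ₗ[ℂ] EuclideanSpace ℂ (Fin n)) (b : Fin n → ℂ)
    (h : ∀ j, T (w j) = b j • w j) (j : Fin n) (v : EuclideanSpace ℂ (Fin n)) :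
    inner ℂ (w j) (T v) = b j * inner ℂ (w j) v := by
  conv_lhs => rw [← w.sum_repr' v]
  rw [map_sum, inner_sum]
  simp only [map_smul, inner_smul_right, h, orthonormal_iff_ite.mp w.orthonormal]
  simp [mul_comm]

open Pool.Agent.KS6_97.SV in
/-- normal matrices -/
lemma normals {n : ℕ} (M N : Matrix (Fin n) (Fin n) ℂ) (a b : Fin n → ℂ)
    (ha : IsNormalSpectrum M a) (hb : IsNormalSpectrum N b) :
    ∃ σ : Equiv.Perm (Fin n), ∀ j, ‖a j - b (σ j)‖ ≤ 9 / 4 * opNorm (M - N) := by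
  obtain ⟨u, hu⟩ := ha
  obtain ⟨w, hw⟩ := hb
  set T := LinearMap.toContinuousLinearMap (Matrix.toEuclideanLin (M - N)) with hT
  have hTv : ∀ v, T v = Matrix.toEuclideanLin M v - Matrix.toEuclideanLin N v := by
    intro v; simp [hT]
  have e1 : ∀ i j, inner ℂ (u i) (T (w j)) = (a i - b j) * inner ℂ (u i) (w j) := by
    intro i j
    rw [hTv, inner_sub_right, diag_inner u _ a hu, hw, inner_smul_right]; ring
  have e2 : ∀ i j, inner ℂ (u i) (T.adjoint (w j))
      = (starRingEnd ℂ) (a i - b j) * inner ℂ (u i) (w j) := by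
    intro i j
    rw [ContinuousLinearMap.adjoint_inner_right, hTv, inner_sub_left, hu, inner_smul_left,
      ← inner_conj_symm (Matrix.toEuclideanLin N (u i)) (w j), diag_inner w _ b hw, map_mul,
      inner_conj_symm, map_sub]
    ring
  refine Pool.Agent.KS6_95.SV.k2 (Matrix.of fun i j => inner ℂ (u i) (w j)) (unitary_mem u w) a b
    (opNorm (M - N)) (norm_nonneg _) ?_
  intro z x
  set ξ := ∑ j, x j • w j with hξ
  have h1 := mixed u w (((1 / 2 : ℂ) • ((starRingEnd ℂ) z • T + z • T.adjoint) :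
      EuclideanSpace ℂ (Fin n) →L[ℂ] EuclideanSpace ℂ (Fin n)) :
      EuclideanSpace ℂ (Fin n) →ₗ[ℂ] EuclideanSpace ℂ (Fin n))
    (fun i j => (((starRingEnd ℂ) z * (a i - b j)).re : ℂ)) (fun i j => by
      have : (((1 / 2 : ℂ) • ((starRingEnd ℂ) z • T + z • T.adjoint) :
        EuclideanSpace ℂ (Fin n) →L[ℂ] EuclideanSpace ℂ (Fin n)) :
        EuclideanSpace ℂ (Fin n) →ₗ[ℂ] EuclideanSpace ℂ (Fin n)) (w j)
        = (1 / 2 : ℂ) • ((starRingEnd ℂ) z • T (w j) + z • T.adjoint (w j)) := by simp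
      rw [this, inner_smul_right, inner_add_right, inner_smul_right, inner_smul_right, e1, e2,
        Complex.re_eq_add_conj, map_mul, Complex.conj_conj]
      ring) x
  simp only [Matrix.of_apply]
  rw [h1, ← norm_comb w x, ← hξ, ← mul_pow]
  refine pow_le_pow_left₀ (norm_nonneg _) ?_ 2
  have h2 : ‖(1 / 2 : ℂ) • ((starRingEnd ℂ) z • T + z • T.adjoint)‖ ≤ opNorm (M - N) * ‖z‖ := by
    rw [norm_smul]
    have h3 : ‖(starRingEnd ℂ) z • T + z • T.adjoint‖ ≤ 2 * (opNorm (M - N) * ‖z‖) := by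
      refine (norm_add_le _ _).trans (le_of_eq ?_)
      rw [norm_smul, norm_smul, LinearIsometryEquiv.norm_map, RCLike.norm_conj]
      change ‖z‖ * opNorm (M - N) + ‖z‖ * opNorm (M - N) = _
      ring
    have h4 : ‖(1 / 2 : ℂ)‖ = 1 / 2 := by norm_num
    rw [h4]; linarith
  exact ContinuousLinearMap.le_of_opNorm_le _ h2 ξ


end Pool.Agent.KS6_97.SV.Full
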