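import Mathlib

/-!
# Spectral variation of commuting tuples: the block of `exp (-s² |a_i - b_j|² / 2) U_ij` over
two separated sets of indices is small

The kernel is the inner product of two translates of a Gaussian, which are almost supported in
disjoint sets.
-/

set_option autoImplicit false

namespace Pool.Agent.KS6_97.SV

open Finset Complex MeasureTheory
open scoped ComplexConjugate

section

variable {V : Type} [NormedAddCommGroup V] [InnerProductSpace ℝ V] [FiniteDimensional ℝ V]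
  [MeasurableSpace V] [BorelSpace V]

/-- the Gaussian weight -/
noncomputable def gs (s : ℝ) (v : V) : ℝ := Real.exp (-(2 * s ^ 2) * ‖v‖ ^ 2)

variable (V) in
/-- total mass -/
noncomputable def gZ (s : ℝ) : ℝ := ∫ v : V, gs s v

variable (V) in
/-- the mass outside the ball of radius `1 / 2` -/
noncomputable def gT (s : ℝ) : ℝ := ∫ v in {v : V | 1 / 2 ≤ ‖v‖}, gs s v

omit [FiniteDimensional ℝ V] [MeasurableSpace V] [BorelSpace V] in
theorem gs_nonneg (s : ℝ) (v : V) : 0 ≤ gs s v := (Real.exp_pos _).le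

theorem gs_int {s : ℝ} (hs : 0 < s) : Integrable (fun v : V => gs s v) := by
  have h := GaussianFourier.integrable_cexp_neg_mul_sq_norm_add (V := V) (b := ((2 * s ^ 2 : ℝ) : ℂ))
    (by simp only [ofReal_re]; positivity) 0 0
  have h2 := h.norm
  refine h2.congr (Filter.Eventually.of_forall fun v => ?_)
  simp only [norm_exp]
  unfold gs
  congr 1
  simp [← ofReal_pow]

theorem gs_int_sub {s : ℝ} (hs : 0 < s) (a : V) : Integrable (fun v : V => gs s (v - a)) :=
  (gs_int hs).comp_sub_right a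

theorem integral_gs_sub (s : ℝ) (a : V) : ∫ v : V, gs s (v - a) = gZ V s :=
  integral_sub_right_eq_self (fun v => gs s v) a

theorem gZ_pos {s : ℝ} (hs : 0 < s) : 0 < gZ V s := by
  unfold gZ gs
  rw [GaussianFourier.integral_rexp_neg_mul_sq_norm (by positivity)]
  positivity

/-- the mass of a translate outside a ball -/
theorem set_gs_sub {s : ℝ} (hs : 0 < s) (a : V) (Ω : Set V) (hΩ : MeasurableSet Ω)
    (h : ∀ v ∈ Ω, 1 / 2 ≤ ‖v - a‖) : ∫ v in Ω, gs s (v - a) ≤ gT V s := by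
  have hm : MeasurableSet {v : V | 1 / 2 ≤ ‖v‖} := measurableSet_le measurable_const measurable_norm
  unfold gT
  rw [← integral_indicator hΩ, ← integral_indicator hm,
    ← integral_sub_right_eq_self (fun v => Set.indicator {v : V | 1 / 2 ≤ ‖v‖} (fun v => gs s v) v) a]
  refine integral_mono ((gs_int_sub hs a).indicator hΩ)
    (((gs_int hs).indicator hm).comp_sub_right a) fun v => ?_
  by_cases hv : v ∈ Ω
  · rw [Set.indicator_of_mem hv]
    simp only
    rw [Set.indicator_of_mem (show v - a ∈ {v : V | 1 / 2 ≤ ‖v‖} from h v hv)]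
  · rw [Set.indicator_of_notMem hv]
    exact Set.indicator_nonneg (fun v _ => gs_nonneg s v) _

omit [FiniteDimensional ℝ V] [MeasurableSpace V] [BorelSpace V] in
/-- the product of two Gaussians -/
theorem gs_prod (s : ℝ) (a b v : V) :
    Real.exp (-(s ^ 2) * ‖v - a‖ ^ 2) * Real.exp (-(s ^ 2) * ‖v - b‖ ^ 2)
      = Real.exp (-(s ^ 2 * ‖a - b‖ ^ 2) / 2) * gs s (v - (1 / 2 : ℝ) • (a + b)) := by
  unfold gs
  rw [← Real.exp_add, ← Real.exp_add]
  congr 1
  have h1 : v - a = (v - (1 / 2 : ℝ) • (a + b)) - (1 / 2 : ℝ) • (a - b) := by module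
  have h2 : v - b = (v - (1 / 2 : ℝ) • (a + b)) + (1 / 2 : ℝ) • (a - b) := by module
  have h3 : ‖v - a‖ ^ 2 + ‖v - b‖ ^ 2
      = 2 * ‖v - (1 / 2 : ℝ) • (a + b)‖ ^ 2 + 1 / 2 * ‖a - b‖ ^ 2 := by
    have hp := parallelogram_law_with_norm ℝ (v - (1 / 2 : ℝ) • (a + b)) ((1 / 2 : ℝ) • (a - b))
    rw [← h1, ← h2] at hp
    rw [norm_smul, Real.norm_eq_abs, abs_of_pos (by norm_num : (0 : ℝ) < 1 / 2)] at hp
    have hp' : ‖v - b‖ ^ 2 + ‖v - a‖ ^ 2
      = 2 * (‖v - (1 / 2 : ℝ) • (a + b)‖ ^ 2 + (1 / 2 * ‖a - b‖) ^ 2) := by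
      simpa only [← pow_two] using hp
    linear_combination hp'
  nlinarith [h3]

variable {ι ι' : Type} [Fintype ι] [Fintype ι'] [DecidableEq ι]

omit [DecidableEq ι] in
theorem norm_sq_sum' (y : ι → ℂ) : ‖∑ j, y j‖ ^ 2 = ∑ j, ∑ l, (conj (y j) * y l).re := by
  rw [← normSq_eq_norm_sq, ← ofReal_re (normSq _), normSq_eq_conj_mul_self, map_sum, sum_mul_sum,
    re_sum]
  refine sum_congr rfl fun j _ => ?_
  rw [re_sum]

theorem unit_sum (U : ι' → ι → ℂ) (hU : ∀ j l, ∑ i, conj (U i j) * U i l = if j = l then 1 else 0)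
    (z : ι → ℂ) : ∑ i, ‖∑ j, U i j * z j‖ ^ 2 = ∑ j, ‖z j‖ ^ 2 := by
  simp only [norm_sq_sum']
  rw [((sum_congr rfl fun j _ => sum_comm).trans sum_comm).symm]
  refine sum_congr rfl fun j _ => ?_
  have e2 : ∀ l, ∑ i, (conj (U i j * z j) * (U i l * z l)).re = if j = l then ‖z j‖ ^ 2 else 0 := by
    intro l
    rw [← re_sum]
    have : ∑ i, conj (U i j * z j) * (U i l * z l)
        = (∑ i, conj (U i j) * U i l) * (conj (z j) * z l) := by
      rw [sum_mul]; refine sum_congr rfl fun i _ => ?_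
      rw [map_mul]; ring
    rw [this, hU]
    by_cases hjl : j = l
    · subst hjl
      simp only [if_true, one_mul]
      rw [← normSq_eq_conj_mul_self, ofReal_re, normSq_eq_norm_sq]
    · simp [hjl]
  simp only [e2, sum_ite_eq, mem_univ, if_true]

omit [DecidableEq ι] [Fintype ι] [Fintype ι'] in
theorem young (u w : ℂ) {θ : ℝ} (hθ : 0 < θ) :
    (conj u * w).re ≤ (1 / 2) * (θ * ‖u‖ ^ 2 + θ⁻¹ * ‖w‖ ^ 2) := by
  have h1 : (conj u * w).re ≤ ‖u‖ * ‖w‖ := by
    calc (conj u * w).re ≤ ‖conj u * w‖ := re_le_norm _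
      _ = ‖u‖ * ‖w‖ := by rw [norm_mul, RCLike.norm_conj]
  have h2 : 0 ≤ (θ * ‖u‖ - ‖w‖) ^ 2 := sq_nonneg _
  have h3 : ‖u‖ * ‖w‖ ≤ (1 / 2) * (θ * ‖u‖ ^ 2 + θ⁻¹ * ‖w‖ ^ 2) := by
    have : θ⁻¹ * θ = 1 := inv_mul_cancel₀ hθ.ne'
    have h4 : 0 ≤ θ⁻¹ * (θ * ‖u‖ - ‖w‖) ^ 2 := by positivity
    have h5 : θ⁻¹ * (θ * ‖u‖ - ‖w‖) ^ 2 = θ * ‖u‖ ^ 2 * (θ⁻¹ * θ) - 2 * (θ⁻¹ * θ) * ‖u‖ * ‖w‖
        + θ⁻¹ * ‖w‖ ^ 2 := by ring
    rw [h5, this] at h4
    linarith
  exact h1.trans h3

/-- the bilinear estimate -/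
theorem block (U : ι' → ι → ℂ)
    (hU : ∀ j l, ∑ i, conj (U i j) * U i l = if j = l then 1 else 0)
    (a : ι' → V) (b : ι → V) (I : Set ι') (J : Set ι)
    (hd : ∀ i ∈ I, ∀ j ∈ J, 1 ≤ ‖a i - b j‖) {s t : ℝ} (hs : 0 < s) (ht0 : 0 < t) (ht : t ≤ 1 / 2)
    (hT : gT V s ≤ t * gZ V s) (y : ι' → ℂ) (x : ι → ℂ) (hy : ∀ i, i ∉ I → y i = 0)
    (hx : ∀ j, j ∉ J → x j = 0) :
    (∑ i, ∑ j, conj (y i) * ((Real.exp (-(s ^ 2 * ‖a i - b j‖ ^ 2) / 2) : ℝ) : ℂ) *
      (U i j * x j)).re ≤ Real.sqrt (t * (1 - t)) * (∑ i, ‖y i‖ ^ 2 + ∑ j, ‖x j‖ ^ 2) := by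
  have hZ := gZ_pos (V := V) hs
  set Z := gZ V s with hZdef
  set Y := ∑ i, ‖y i‖ ^ 2 with hY
  set X := ∑ j, ‖x j‖ ^ 2 with hX
  -- the functions
  set p : V → ℝ := fun v => ∑ i, ‖y i‖ ^ 2 * gs s (v - a i) with hp
  set r : V → ℝ := fun v => ∑ j, ‖x j‖ ^ 2 * gs s (v - b j) with hr
  set F : V → ℝ := fun v => ∑ i, ∑ j, (conj (y i) * (U i j * x j)).re *
    (Real.exp (-(s ^ 2) * ‖v - a i‖ ^ 2) * Real.exp (-(s ^ 2) * ‖v - b j‖ ^ 2)) with hF
  have hpi : Integrable p := integrable_finset_sum _ fun i _ => (gs_int_sub hs (a i)).const_mul _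
  have hri : Integrable r := integrable_finset_sum _ fun j _ => (gs_int_sub hs (b j)).const_mul _
  have hFi : Integrable F := by
    refine integrable_finset_sum _ fun i _ => integrable_finset_sum _ fun j _ => ?_
    simp only [gs_prod]
    exact ((gs_int_sub hs _).const_mul _).const_mul _
  have hFint : ∫ v, F v = Z * (∑ i, ∑ j, conj (y i) *
      ((Real.exp (-(s ^ 2 * ‖a i - b j‖ ^ 2) / 2) : ℝ) : ℂ) * (U i j * x j)).re := by
    simp only [hF]
    rw [integral_finset_sum _ fun i _ => integrable_finset_sum _ fun j _ => by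
      simp only [gs_prod]
      exact ((gs_int_sub hs _).const_mul _).const_mul _]
    rw [re_sum, mul_sum]
    refine sum_congr rfl fun i _ => ?_
    rw [integral_finset_sum _ fun j _ => by
      simp only [gs_prod]
      exact ((gs_int_sub hs _).const_mul _).const_mul _]
    rw [re_sum, mul_sum]
    refine sum_congr rfl fun j _ => ?_
    simp only [gs_prod]
    rw [integral_const_mul, integral_const_mul, integral_gs_sub]
    have : conj (y i) * ((Real.exp (-(s ^ 2 * ‖a i - b j‖ ^ 2) / 2) : ℝ) : ℂ) * (U i j * x j)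
        = ((Real.exp (-(s ^ 2 * ‖a i - b j‖ ^ 2) / 2) : ℝ) : ℂ) * (conj (y i) * (U i j * x j)) := by
      ring
    rw [this, re_ofReal_mul]
    ring
  -- pointwise bound
  have hpt : ∀ (v : V) (θ : ℝ), 0 < θ → F v ≤ (1 / 2) * (θ * p v + θ⁻¹ * r v) := by
    intro v θ hθ
    set α : ι' → ℝ := fun i => Real.exp (-(s ^ 2) * ‖v - a i‖ ^ 2) with hα
    set β : ι → ℝ := fun j => Real.exp (-(s ^ 2) * ‖v - b j‖ ^ 2) with hβ
    have hα2 : ∀ i, α i ^ 2 = gs s (v - a i) := by
      intro i; simp only [hα, gs]; rw [← Real.exp_nat_mul]; congr 1; push_cast; ring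
    have hβ2 : ∀ j, β j ^ 2 = gs s (v - b j) := by
      intro j; simp only [hβ, gs]; rw [← Real.exp_nat_mul]; congr 1; push_cast; ring
    have e1 : F v = ∑ i, (conj ((α i : ℂ) * y i) * (∑ j, U i j * ((β j : ℂ) * x j))).re := by
      simp only [hF]
      refine sum_congr rfl fun i _ => ?_
      rw [mul_sum, re_sum]
      refine sum_congr rfl fun j _ => ?_
      have : conj ((α i : ℂ) * y i) * (U i j * ((β j : ℂ) * x j))
          = ((α i * β j : ℝ) : ℂ) * (conj (y i) * (U i j * x j)) := by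
        rw [map_mul, conj_ofReal]; push_cast; ring
      rw [this, re_ofReal_mul]; ring
    rw [e1]
    refine (sum_le_sum fun i _ => young _ _ hθ).trans (le_of_eq ?_)
    rw [← mul_sum, sum_add_distrib, ← mul_sum, ← mul_sum, unit_sum U hU]
    congr 3
    · simp only [hp]
      refine sum_congr rfl fun i _ => ?_
      rw [norm_mul, norm_real, mul_pow, Real.norm_eq_abs, sq_abs, hα2]; ring
    · simp only [hr]
      refine sum_congr rfl fun j _ => ?_
      rw [norm_mul, norm_real, mul_pow, Real.norm_eq_abs, sq_abs, hβ2]; ring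
  -- the set
  set Ω : Set V := ⋃ i ∈ I, Metric.ball (a i) (1 / 2) with hΩ
  have hΩo : IsOpen Ω := isOpen_biUnion fun i _ => Metric.isOpen_ball
  have hΩm : MeasurableSet Ω := hΩo.measurableSet
  have hpΩ : ∫ v in Ωᶜ, p v ≤ t * Z * Y := by
    simp only [hp]
    rw [integral_finset_sum _ fun i _ => ((gs_int_sub hs (a i)).const_mul _).integrableOn]
    rw [hY, mul_sum]
    refine sum_le_sum fun i _ => ?_
    rw [integral_const_mul]
    by_cases hi : i ∈ I
    · have : ∫ v in Ωᶜ, gs s (v - a i) ≤ gT V s := by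
        refine set_gs_sub hs (a i) _ hΩm.compl fun v hv => ?_
        by_contra hlt
        apply hv
        simp only [hΩ, Set.mem_iUnion]
        exact ⟨i, hi, by rw [Metric.mem_ball, dist_eq_norm]; push Not at hlt; exact hlt⟩
      calc ‖y i‖ ^ 2 * ∫ v in Ωᶜ, gs s (v - a i) ≤ ‖y i‖ ^ 2 * (t * Z) :=
            mul_le_mul_of_nonneg_left (this.trans hT) (by positivity)
        _ = _ := by ring
    · simp [hy i hi]
  have hrΩ : ∫ v in Ω, r v ≤ t * Z * X := by
    simp only [hr]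
    rw [integral_finset_sum _ fun j _ => ((gs_int_sub hs (b j)).const_mul _).integrableOn]
    rw [hX, mul_sum]
    refine sum_le_sum fun j _ => ?_
    rw [integral_const_mul]
    by_cases hj : j ∈ J
    · have : ∫ v in Ω, gs s (v - b j) ≤ gT V s := by
        refine set_gs_sub hs (b j) _ hΩm fun v hv => ?_
        simp only [hΩ, Set.mem_iUnion] at hv
        obtain ⟨i, hi, hv⟩ := hv
        rw [Metric.mem_ball, dist_eq_norm] at hv
        have h1 := hd i hi j hj
        have h2 : ‖a i - b j‖ ≤ ‖v - a i‖ + ‖v - b j‖ := by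
          calc ‖a i - b j‖ = ‖(v - b j) - (v - a i)‖ := by congr 1; abel
            _ ≤ ‖v - b j‖ + ‖v - a i‖ := norm_sub_le _ _
            _ = _ := by ring
        linarith
      calc ‖x j‖ ^ 2 * ∫ v in Ω, gs s (v - b j) ≤ ‖x j‖ ^ 2 * (t * Z) :=
            mul_le_mul_of_nonneg_left (this.trans hT) (by positivity)
        _ = _ := by ring
    · simp [hx j hj]
  have hpZ : ∫ v, p v = Z * Y := by
    simp only [hp]
    rw [integral_finset_sum _ fun i _ => (gs_int_sub hs (a i)).const_mul _, hY, mul_sum]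
    refine sum_congr rfl fun i _ => ?_
    rw [integral_const_mul, integral_gs_sub]; ring
  have hrZ : ∫ v, r v = Z * X := by
    simp only [hr]
    rw [integral_finset_sum _ fun j _ => (gs_int_sub hs (b j)).const_mul _, hX, mul_sum]
    refine sum_congr rfl fun j _ => ?_
    rw [integral_const_mul, integral_gs_sub]; ring
  -- the weight
  have h1t : 0 < 1 - t := by linarith
  set q : ℝ := Real.sqrt (t / (1 - t)) with hq
  have hq0 : 0 < q := Real.sqrt_pos.mpr (by positivity)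
  have hq2 : q ^ 2 = t / (1 - t) := Real.sq_sqrt (by positivity)
  have hq1 : q ≤ 1 := by
    rw [hq]; apply Real.sqrt_le_one.mpr
    rw [div_le_one h1t]; linarith
  have hqi : q ≤ q⁻¹ := hq1.trans (by rw [one_le_inv₀ hq0]; exact hq1)
  -- splitting
  have hs1 : ∫ v in Ω, F v ≤ (1 / 2) * (q * ∫ v in Ω, p v) + (1 / 2) * (q⁻¹ * ∫ v in Ω, r v) := by
    rw [← integral_const_mul, ← integral_const_mul, ← integral_const_mul, ← integral_const_mul,
      ← integral_add ((hpi.const_mul _).const_mul _).integrableOn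
        ((hri.const_mul _).const_mul _).integrableOn]
    refine integral_mono hFi.integrableOn
      (((hpi.const_mul _).const_mul _).integrableOn.add
        ((hri.const_mul _).const_mul _).integrableOn) fun v => ?_
    have := hpt v q hq0
    simp only
    linarith
  have hs2 : ∫ v in Ωᶜ, F v ≤ (1 / 2) * (q⁻¹ * ∫ v in Ωᶜ, p v) + (1 / 2) * (q * ∫ v in Ωᶜ, r v) := by
    rw [← integral_const_mul, ← integral_const_mul, ← integral_const_mul, ← integral_const_mul,
      ← integral_add ((hpi.const_mul _).const_mul _).integrableOn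
        ((hri.const_mul _).const_mul _).integrableOn]
    refine integral_mono hFi.integrableOn
      (((hpi.const_mul _).const_mul _).integrableOn.add
        ((hri.const_mul _).const_mul _).integrableOn) fun v => ?_
    have := hpt v q⁻¹ (inv_pos.mpr hq0)
    rw [inv_inv] at this
    simp only
    linarith
  have hF2 := integral_add_compl hΩm hFi
  have hp2 := integral_add_compl hΩm hpi
  have hr2 := integral_add_compl hΩm hri
  rw [hpZ] at hp2
  rw [hrZ] at hr2
  -- the value of the constant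
  have hc : q + (q⁻¹ - q) * t = 2 * Real.sqrt (t * (1 - t)) := by
    have e1 : Real.sqrt (t * (1 - t)) = q * (1 - t) := by
      rw [Real.sqrt_eq_iff_mul_self_eq (by positivity) (by positivity)]
      have : q * (1 - t) * (q * (1 - t)) = q ^ 2 * (1 - t) ^ 2 := by ring
      rw [this, hq2]; field_simp
    have e2 : q⁻¹ * t = q * (1 - t) := by
      have : t = q ^ 2 * (1 - t) := by rw [hq2]; field_simp
      rw [inv_mul_eq_div, div_eq_iff hq0.ne']
      linarith [this]
    rw [e1]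
    linear_combination e2
  have hfin : ∫ v, F v ≤ Z * (Real.sqrt (t * (1 - t)) * (Y + X)) := by
    have h1 : (q⁻¹ - q) * ∫ v in Ωᶜ, p v ≤ (q⁻¹ - q) * (t * Z * Y) :=
      mul_le_mul_of_nonneg_left hpΩ (by linarith)
    have h2 : (q⁻¹ - q) * ∫ v in Ω, r v ≤ (q⁻¹ - q) * (t * Z * X) :=
      mul_le_mul_of_nonneg_left hrΩ (by linarith)
    have h3 : ∫ v, F v ≤ (1 / 2) * (q * (Z * Y) + q * (Z * X) + (q⁻¹ - q) * (t * Z * Y)
        + (q⁻¹ - q) * (t * Z * X)) := by
      rw [← hF2, ← hp2, ← hr2]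
      linarith
    refine h3.trans (le_of_eq ?_)
    have : Real.sqrt (t * (1 - t)) = (q + (q⁻¹ - q) * t) / 2 := by rw [hc]; ring
    rw [this]; ring
  rw [hFint] at hfin
  exact le_of_mul_le_mul_left hfin hZ

end

end Pool.Agent.KS6_97.SV
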