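import Pool.Agent.KS6_97.SV.P
import Pool.Agent.KS6_97.SV.Q

/-!
# Spectral variation of commuting tuples: matching
-/

set_option autoImplicit false

namespace Pool.Agent.KS6_97.SV

open Finset Complex MeasureTheory
open scoped ComplexConjugate

section

variable {ι κ : Type} [Fintype ι] [Fintype κ] [DecidableEq ι]

/-- the tuple of the matrices `((a_i^J - b_j^J) U_ij)` has norm at most `ε` -/
def Bd (U : ι → ι → ℂ) (a b : ι → EuclideanSpace ℝ κ) (ε : ℝ) : Prop :=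
  ∀ x : ι → ℂ, ∑ i, ∑ J, ‖∑ j, ((a i J - b j J : ℝ) : ℂ) * U i j * x j‖ ^ 2
      ≤ ε ^ 2 * ∑ j, ‖x j‖ ^ 2

/-- matching at the scale one -/
theorem match_one (U : ι → ι → ℂ)
    (hU : ∀ j l, ∑ i, conj (U i j) * U i l = if j = l then 1 else 0)
    (a b : ι → EuclideanSpace ℝ κ) {ε s t : ℝ} (hε0 : 0 ≤ ε) (hε : Bd U a b ε)
    (hs : 0 < s) (ht0 : 0 < t) (ht : t ≤ 1 / 2)
    (hT : gT (EuclideanSpace ℝ κ) s ≤ t * gZ (EuclideanSpace ℝ κ) s) (hlt : s * ε < 1 - 2 * t) :
    ∃ σ : Equiv.Perm ι, ∀ i, ‖a i - b (σ i)‖ < 1 := by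
  classical
  by_contra hno
  -- Hall
  set N : ι → Finset ι := fun i => univ.filter fun j => ‖a i - b j‖ < 1 with hN
  have hall : ¬ ∀ S : Finset ι, S.card ≤ (S.biUnion N).card := by
    intro h
    obtain ⟨f, hf, hf2⟩ := (Finset.all_card_le_biUnion_card_iff_exists_injective N).mp h
    refine hno ⟨Equiv.ofBijective f (Finite.injective_iff_bijective.mp hf), fun i => ?_⟩
    have := hf2 i
    simp only [hN, mem_filter] at this
    exact this.2
  push Not at hall
  obtain ⟨S, hS⟩ := hall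
  set J : Finset ι := (S.biUnion N)ᶜ with hJ
  have hd : ∀ i ∈ (S : Set ι), ∀ j ∈ (J : Set ι), 1 ≤ ‖a i - b j‖ := by
    intro i hi j hj
    rw [mem_coe] at hi hj
    rw [hJ, mem_compl] at hj
    by_contra hlt
    push Not at hlt
    exact hj (mem_biUnion.mpr ⟨i, hi, by simp [hN, hlt]⟩)
  -- the linear map
  set M : ι → ι → ℂ := fun i j =>
    ((Real.exp (-(s ^ 2 * ∑ K, (a i K - b j K) ^ 2) / 2) : ℝ) : ℂ) * U i j with hM
  set L : ({j // j ∈ J} → ℂ) →ₗ[ℂ] ({i // i ∈ Sᶜ} → ℂ) :=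
    (Matrix.of fun (i : {i // i ∈ Sᶜ}) (j : {j // j ∈ J}) => M i j).mulVecLin with hL
  have hcard : Fintype.card {i // i ∈ Sᶜ} < Fintype.card {j // j ∈ J} := by
    rw [Fintype.card_coe, Fintype.card_coe, hJ, card_compl, card_compl]
    have h1 : S.card ≤ Fintype.card ι := card_le_univ S
    omega
  obtain ⟨x', hx'0, hx'⟩ : ∃ x' : {j // j ∈ J} → ℂ, x' ≠ 0 ∧ L x' = 0 := by
    have hk : LinearMap.ker L ≠ ⊥ := by
      apply LinearMap.ker_ne_bot_of_finrank_lt
      simpa using hcard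
    obtain ⟨x', hx', h0⟩ := Submodule.exists_mem_ne_zero_of_ne_bot hk
    exact ⟨x', h0, LinearMap.mem_ker.mp hx'⟩
  set x : ι → ℂ := fun j => if h : j ∈ J then x' ⟨j, h⟩ else 0 with hx
  have hxJ : ∀ j, j ∉ (J : Set ι) → x j = 0 := by
    intro j hj; simp only [hx]; rw [dif_neg (by simpa using hj)]
  have hX : 0 < ∑ j, ‖x j‖ ^ 2 := by
    obtain ⟨j, hj⟩ : ∃ j, x' j ≠ 0 := by
      by_contra h; push Not at h; exact hx'0 (funext h)
    refine sum_pos' (fun j _ => by positivity) ⟨j, mem_univ _, ?_⟩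
    have : x j = x' j := by simp only [hx]; rw [dif_pos j.2]
    rw [this]; positivity
  set w : ι → ℂ := fun i => ∑ j, M i j * x j with hw
  have hw0 : ∀ i, i ∉ (S : Set ι) → w i = 0 := by
    intro i hi
    have h1 := congrFun hx' ⟨i, by simpa using hi⟩
    simp only [hL, Matrix.mulVecLin_apply, Matrix.mulVec, dotProduct, Matrix.of_apply,
      Pi.zero_apply] at h1
    rw [← h1]
    simp only [hw]
    rw [← sum_subset (subset_univ J) (fun j _ hj => by
      rw [hxJ j (by simpa using hj), mul_zero]), ← sum_coe_sort J]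
    refine sum_congr rfl fun j _ => ?_
    have : x j = x' j := by simp only [hx]; rw [dif_pos j.2]
    rw [this]
  have hlow := lower U hU (fun i K => a i K) (fun j K => b j K) ε hε s x
  have hlow' : (1 - s ^ 2 * ε ^ 2) * ∑ j, ‖x j‖ ^ 2 ≤ ∑ i, ‖w i‖ ^ 2 := hlow
  set X := ∑ j, ‖x j‖ ^ 2 with hXd
  set Y := ∑ i, ‖w i‖ ^ 2 with hYd
  set c := Real.sqrt (t * (1 - t)) with hc
  have hc2 : c ^ 2 = t * (1 - t) := Real.sq_sqrt (by nlinarith)
  have hc0 : 0 < c := Real.sqrt_pos.mpr (by nlinarith)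
  have hblk : ∀ l : ℝ, l * Y ≤ c * (l ^ 2 * Y + X) := by
    intro l
    have h := block U hU a b (S : Set ι) (J : Set ι) hd hs ht0 ht hT (fun i => (l : ℂ) * w i) x
      (fun i hi => by rw [hw0 i hi, mul_zero]) hxJ
    have e1 : (∑ i, ∑ j, conj ((l : ℂ) * w i) *
        ((Real.exp (-(s ^ 2 * ‖a i - b j‖ ^ 2) / 2) : ℝ) : ℂ) * (U i j * x j)).re = l * Y := by
      have : ∀ i, ∑ j, conj ((l : ℂ) * w i) *
          ((Real.exp (-(s ^ 2 * ‖a i - b j‖ ^ 2) / 2) : ℝ) : ℂ) * (U i j * x j)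
          = ((l * ‖w i‖ ^ 2 : ℝ) : ℂ) := by
        intro i
        have h1 : ∑ j, conj ((l : ℂ) * w i) *
          ((Real.exp (-(s ^ 2 * ‖a i - b j‖ ^ 2) / 2) : ℝ) : ℂ) * (U i j * x j)
          = (l : ℂ) * (conj (w i) * w i) := by
          have h2 : (l : ℂ) * (conj (w i) * w i) = (l : ℂ) * (conj (w i) * ∑ j, M i j * x j) := rfl
          have h3 : conj (w i) * ∑ j, M i j * x j = ∑ j, conj (w i) * (M i j * x j) :=
            Finset.mul_sum _ _ _
          have h4 : (l : ℂ) * ∑ j, conj (w i) * (M i j * x j)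
              = ∑ j, (l : ℂ) * (conj (w i) * (M i j * x j)) := Finset.mul_sum _ _ _
          rw [h2, h3, h4]
          refine Finset.sum_congr rfl fun j _ => ?_
          simp only [hM]
          rw [EuclideanSpace.norm_sq_eq]
          simp only [map_mul, conj_ofReal, PiLp.sub_apply, Real.norm_eq_abs, sq_abs]
          ring
        rw [h1, ← normSq_eq_conj_mul_self, normSq_eq_norm_sq]; push_cast; ring
      simp only [this]
      rw [← ofReal_sum, ofReal_re, ← mul_sum]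
    have e2 : ∑ i, ‖(l : ℂ) * w i‖ ^ 2 = l ^ 2 * Y := by
      rw [hYd, mul_sum]
      refine sum_congr rfl fun i _ => ?_
      rw [norm_mul, norm_real, mul_pow, Real.norm_eq_abs, sq_abs]
    rw [e1, e2] at h
    exact h
  have hYX : Y ≤ 4 * c ^ 2 * X := by
    have h := hblk (1 / (2 * c))
    have h1 : c * ((1 / (2 * c)) ^ 2 * Y + X) = Y / (4 * c) + c * X := by field_simp; ring
    rw [h1] at h
    have h2 : 1 / (2 * c) * Y = Y / (4 * c) + Y / (4 * c) := by field_simp; ring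
    rw [h2] at h
    have h3 : Y / (4 * c) ≤ c * X := by linarith
    rw [div_le_iff₀ (by positivity)] at h3
    nlinarith [h3]
  have h5 : (1 - s ^ 2 * ε ^ 2) * X ≤ 4 * (t * (1 - t)) * X := by
    rw [← hc2]; exact hlow'.trans hYX
  have h6 : 1 - s ^ 2 * ε ^ 2 ≤ 4 * (t * (1 - t)) := le_of_mul_le_mul_right h5 hX
  have h7 : 0 ≤ s * ε := by positivity
  nlinarith [h6, h7, hlt]

end

end Pool.Agent.KS6_97.SV
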