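import Mathlib

/-!
# Spectral variation of commuting tuples: the Gaussian Poincaré inequality for trigonometric
polynomials with vector coefficients

Everything is finite dimensional: the kernels `⟨v_j, v_l⟩ ^ m` are positive semidefinite, and
`x e^x - e^x + 1` and `e^x` have nonnegative Taylor coefficients.
-/

set_option autoImplicit false

namespace Pool.Agent.KS6_97.SV

open Finset Complex
open scoped ComplexConjugate

section

variable {ι κ : Type} [Fintype ι] [Fintype κ]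

/-- the entry `Re (conj y_j y_l G_jl)` -/
noncomputable def ent (G : ι → ι → ℂ) (y : ι → ℂ) (j l : ι) : ℝ := (conj (y j) * y l * G j l).re

/-- the bilinear expression `⟨v_j, v_l⟩` -/
def dotp (v : ι → κ → ℝ) (j l : ι) : ℝ := ∑ J, v j J * v l J

theorem ent_smul (G : ι → ι → ℂ) (y : ι → ℂ) (w : ι → ℝ) (j l : ι) :
    ent G (fun k => (w k : ℂ) * y k) j l = w j * w l * ent G y j l := by
  unfold ent
  have : conj ((w j : ℂ) * y j) * ((w l : ℂ) * y l) * G j l
      = ((w j * w l : ℝ) : ℂ) * (conj (y j) * y l * G j l) := by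
    rw [map_mul, conj_ofReal]; push_cast; ring
  rw [this, re_ofReal_mul]

/-- Schur product with the `m`-th power of a Gram matrix -/
theorem schur_pow (G : ι → ι → ℂ) (p : ι → ℝ)
    (hG : ∀ y : ι → ℂ, ∑ j, ∑ l, ent G y j l ≤ ∑ j, p j * ‖y j‖ ^ 2) (v : ι → κ → ℝ) (m : ℕ) :
    ∀ y : ι → ℂ, ∑ j, ∑ l, ent G y j l * dotp v j l ^ m
      ≤ ∑ j, p j * ‖y j‖ ^ 2 * dotp v j j ^ m := by
  induction m with
  | zero => intro y; simpa using hG y
  | succ m ih =>
    intro y
    have h1 : ∀ J : κ, ∑ j, ∑ l, ent G y j l * (v j J * v l J) * dotp v j l ^ m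
        ≤ ∑ j, p j * ‖y j‖ ^ 2 * (v j J * v j J) * dotp v j j ^ m := by
      intro J
      have := ih (fun k => (v k J : ℂ) * y k)
      calc ∑ j, ∑ l, ent G y j l * (v j J * v l J) * dotp v j l ^ m
          = ∑ j, ∑ l, ent G (fun k => (v k J : ℂ) * y k) j l * dotp v j l ^ m := by
            refine sum_congr rfl fun j _ => sum_congr rfl fun l _ => ?_
            rw [ent_smul G y (fun k => v k J)]; ring
        _ ≤ ∑ j, p j * ‖(v j J : ℂ) * y j‖ ^ 2 * dotp v j j ^ m := this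
        _ = ∑ j, p j * ‖y j‖ ^ 2 * (v j J * v j J) * dotp v j j ^ m := by
            refine sum_congr rfl fun j _ => ?_
            rw [norm_mul, norm_real, mul_pow, Real.norm_eq_abs, sq_abs]; ring
    calc ∑ j, ∑ l, ent G y j l * dotp v j l ^ (m + 1)
        = ∑ J, ∑ j, ∑ l, ent G y j l * (v j J * v l J) * dotp v j l ^ m := by
          rw [← (sum_congr rfl fun j _ => sum_comm).trans sum_comm]
          refine sum_congr rfl fun j _ => sum_congr rfl fun l _ => ?_
          rw [pow_succ, ← sum_mul, ← mul_sum]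
          change _ = ent G y j l * dotp v j l * dotp v j l ^ m
          ring
      _ ≤ ∑ J, ∑ j, p j * ‖y j‖ ^ 2 * (v j J * v j J) * dotp v j j ^ m :=
          sum_le_sum fun J _ => h1 J
      _ = ∑ j, p j * ‖y j‖ ^ 2 * dotp v j j ^ (m + 1) := by
          rw [sum_comm]
          refine sum_congr rfl fun j _ => ?_
          rw [pow_succ, ← sum_mul, ← mul_sum]
          change p j * ‖y j‖ ^ 2 * dotp v j j * dotp v j j ^ m = _
          ring

/-- Schur product with a power series with nonnegative coefficients of a Gram matrix -/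
theorem schur_series (G : ι → ι → ℂ) (p : ι → ℝ)
    (hG : ∀ y : ι → ℂ, ∑ j, ∑ l, ent G y j l ≤ ∑ j, p j * ‖y j‖ ^ 2) (v : ι → κ → ℝ)
    (c : ℕ → ℝ) (hc : ∀ m, 0 ≤ c m) (F : ℝ → ℝ) (hF : ∀ x, HasSum (fun m => c m * x ^ m) (F x))
    (y : ι → ℂ) :
    ∑ j, ∑ l, ent G y j l * F (dotp v j l) ≤ ∑ j, p j * ‖y j‖ ^ 2 * F (dotp v j j) := by
  have h1 : HasSum (fun m => ∑ j, ∑ l, ent G y j l * (c m * dotp v j l ^ m))
      (∑ j, ∑ l, ent G y j l * F (dotp v j l)) :=
    hasSum_sum fun j _ => hasSum_sum fun l _ => (hF _).mul_left _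
  have h2 : HasSum (fun m => ∑ j, p j * ‖y j‖ ^ 2 * (c m * dotp v j j ^ m))
      (∑ j, p j * ‖y j‖ ^ 2 * F (dotp v j j)) :=
    hasSum_sum fun j _ => (hF _).mul_left _
  refine hasSum_le (fun m => ?_) h1 h2
  have := mul_le_mul_of_nonneg_left (schur_pow G p hG v m y) (hc m)
  calc ∑ j, ∑ l, ent G y j l * (c m * dotp v j l ^ m)
      = c m * ∑ j, ∑ l, ent G y j l * dotp v j l ^ m := by
        rw [mul_sum]; refine sum_congr rfl fun j _ => ?_
        rw [mul_sum]; refine sum_congr rfl fun l _ => ?_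
        ring
    _ ≤ c m * ∑ j, p j * ‖y j‖ ^ 2 * dotp v j j ^ m := this
    _ = _ := by
        rw [mul_sum]; refine sum_congr rfl fun j _ => ?_
        ring

theorem hasSum_exp' (x : ℝ) :
    HasSum (fun m : ℕ => (1 / (m.factorial : ℝ)) * x ^ m) (Real.exp x) := by
  have := NormedSpace.expSeries_div_hasSum_exp x
  rw [← Real.exp_eq_exp_ℝ] at this
  have h : (fun m : ℕ => (1 / (m.factorial : ℝ)) * x ^ m) = fun m : ℕ => x ^ m / (m.factorial : ℝ) := by
    funext m; ring
  rw [h]; exact this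

/-- `x e^x - e^x + 1` has nonnegative Taylor coefficients -/
theorem hasSum_poin (x : ℝ) :
    HasSum (fun m : ℕ => (((m : ℝ) - 1) / (m.factorial : ℝ) + if m = 0 then 1 else 0) * x ^ m)
      (x * Real.exp x - Real.exp x + 1) := by
  have h0 := hasSum_exp' x
  have h1 : HasSum (fun m : ℕ => (m : ℝ) / (m.factorial : ℝ) * x ^ m) (x * Real.exp x) := by
    rw [← hasSum_nat_add_iff' 1]
    simp only [range_one, sum_singleton, CharP.cast_eq_zero, zero_div, zero_mul, sub_zero]
    have h := h0.mul_left x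
    have he : (fun m : ℕ => x * ((1 / (m.factorial : ℝ)) * x ^ m))
        = fun m : ℕ => ((m + 1 : ℕ) : ℝ) / (((m + 1).factorial : ℕ) : ℝ) * x ^ (m + 1) := by
      funext m
      have h1 : ((m + 1).factorial : ℝ) = (m + 1) * m.factorial := by
        rw [Nat.factorial_succ]; push_cast; ring
      have h2 : (m.factorial : ℝ) ≠ 0 := by positivity
      have h3 : (m : ℝ) + 1 ≠ 0 := by positivity
      rw [h1]
      push_cast
      field_simp
      ring
    rw [he] at h; exact h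
  have h2 : HasSum (fun m : ℕ => (if m = 0 then (1 : ℝ) else 0)) 1 := by
    simpa using hasSum_ite_eq (0 : ℕ) (1 : ℝ)
  have h := (h1.sub h0).add h2
  have he : (fun m : ℕ => ((m : ℝ) / (m.factorial : ℝ) * x ^ m - (1 / (m.factorial : ℝ)) * x ^ m)
      + (if m = 0 then (1 : ℝ) else 0))
      = fun m : ℕ => (((m : ℝ) - 1) / (m.factorial : ℝ) + if m = 0 then 1 else 0) * x ^ m := by
    funext m
    by_cases hm : m = 0
    · subst hm; simp
    · simp only [hm, if_false, add_zero]; ring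
  rw [he] at h; exact h

theorem poin_coeff (m : ℕ) :
    0 ≤ ((m : ℝ) - 1) / (m.factorial : ℝ) + (if m = 0 then 1 else 0) := by
  by_cases hm : m = 0
  · subst hm; simp
  · have : (1 : ℝ) ≤ m := by exact_mod_cast Nat.one_le_iff_ne_zero.mpr hm
    simp only [hm, if_false, add_zero]
    exact div_nonneg (by linarith) (by positivity)

theorem exp_coeff (m : ℕ) : (0 : ℝ) ≤ 1 / (m.factorial : ℝ) := by positivity

/-- the square of the norm of a sum as a double sum -/
theorem norm_sq_sum (y : ι → ℂ) : ‖∑ j, y j‖ ^ 2 = ∑ j, ∑ l, (conj (y j) * y l).re := by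
  rw [← normSq_eq_norm_sq, ← ofReal_re (normSq _), normSq_eq_conj_mul_self, map_sum, sum_mul_sum,
    re_sum]
  refine sum_congr rfl fun j _ => ?_
  rw [re_sum]

theorem ent_one (c : ℝ) (y : ι → ℂ) (j l : ι) :
    ent (fun _ _ => (c : ℂ)) y j l = c * (conj (y j) * y l).re := by
  unfold ent
  rw [mul_comm, re_ofReal_mul]

/-- **Gaussian Poincaré inequality for trigonometric polynomials.** -/
theorem poin (v : ι → κ → ℝ) (y : ι → ℂ) :
    ∑ j, ∑ l, (conj (y j) * y l).re * (Real.exp (dotp v j l) - 1 -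
      dotp v j l * Real.exp (dotp v j l)) ≤ 0 := by
  have h := schur_series (fun _ _ => ((-1 : ℝ) : ℂ)) (fun _ : ι => (0 : ℝ)) (fun y => by
    have : ∑ j, ∑ l, ent (fun _ _ => ((-1 : ℝ) : ℂ)) y j l = - ‖∑ j, y j‖ ^ 2 := by
      rw [norm_sq_sum, ← sum_neg_distrib]
      refine sum_congr rfl fun j _ => ?_
      rw [← sum_neg_distrib]
      refine sum_congr rfl fun l _ => ?_
      rw [ent_one]; ring
    rw [this]
    simp) v _ poin_coeff _ hasSum_poin y
  simp only [zero_mul, sum_const_zero] at h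
  refine le_trans (le_of_eq ?_) h
  refine sum_congr rfl fun j _ => sum_congr rfl fun l _ => ?_
  rw [ent_one]; ring

/-- the Gaussian kernel -/
theorem gk (v : ι → κ → ℝ) (s : ℝ) (j l : ι) :
    Real.exp (-(s ^ 2 * ∑ J, (v j J - v l J) ^ 2) / 2)
      = Real.exp (-(s ^ 2 * ∑ J, v j J ^ 2) / 2) * Real.exp (-(s ^ 2 * ∑ J, v l J ^ 2) / 2) *
        Real.exp (dotp (fun j J => s * v j J) j l) := by
  rw [← Real.exp_add, ← Real.exp_add]
  congr 1
  have : ∑ J, (v j J - v l J) ^ 2 = ∑ J, v j J ^ 2 + ∑ J, v l J ^ 2 - 2 * ∑ J, v j J * v l J := by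
    rw [mul_sum, ← sum_add_distrib, ← sum_sub_distrib]
    exact sum_congr rfl fun J _ => by ring
  have h2 : dotp (fun j J => s * v j J) j l = s ^ 2 * ∑ J, v j J * v l J := by
    unfold dotp; rw [mul_sum]; exact sum_congr rfl fun J _ => by ring
  rw [this, h2]; ring

end

section

variable {ι ι' κ : Type} [Fintype ι] [Fintype ι'] [Fintype κ] [DecidableEq ι]

omit [Fintype ι'] in
theorem q_symm (a : ι' → κ → ℝ) (b : ι → κ → ℝ) (s : ℝ) (i : ι') (j : ι) :
    Real.exp (-(s ^ 2 * ∑ J, (a i J - b j J) ^ 2) / 2)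
      = Real.exp (-(s ^ 2 * ∑ J, (b j J - a i J) ^ 2) / 2) := by
  have : ∑ J, (a i J - b j J) ^ 2 = ∑ J, (b j J - a i J) ^ 2 :=
    sum_congr rfl fun J _ => by ring
  rw [this]

omit [Fintype ι'] [DecidableEq ι] in
/-- the inequality for one row -/
theorem row (U : ι' → ι → ℂ) (a : ι' → κ → ℝ) (b : ι → κ → ℝ) (s : ℝ) (x : ι → ℂ) (i : ι') :
    ∑ j, ∑ l, (conj (U i j * x j) * (U i l * x l)).re *
        Real.exp (-(s ^ 2 * ∑ J, (b j J - b l J) ^ 2) / 2)
      - ∑ j, ∑ l, (conj (U i j * x j) * (U i l * x l)).re *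
        (s ^ 2 * ∑ J, (b j J - a i J) * (b l J - a i J)) *
        Real.exp (-(s ^ 2 * ∑ J, (b j J - b l J) ^ 2) / 2)
      ≤ ‖∑ j, ((Real.exp (-(s ^ 2 * ∑ J, (b j J - a i J) ^ 2) / 2) : ℝ) : ℂ) * U i j * x j‖ ^ 2 := by
  set q : ι → ℝ := fun j => Real.exp (-(s ^ 2 * ∑ J, (b j J - a i J) ^ 2) / 2) with hq
  set z : ι → ι → ℝ := fun j l => dotp (fun j J => s * (b j J - a i J)) j l with hz
  have hzz : ∀ j l, z j l = s ^ 2 * ∑ J, (b j J - a i J) * (b l J - a i J) := by
    intro j l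
    simp only [hz, dotp]
    rw [mul_sum]; exact sum_congr rfl fun J _ => by ring
  have hk : ∀ j l, Real.exp (-(s ^ 2 * ∑ J, (b j J - b l J) ^ 2) / 2)
      = q j * q l * Real.exp (z j l) := by
    intro j l
    have := gk (fun j J => b j J - a i J) s j l
    simp only [sub_sub_sub_cancel_right] at this
    exact this
  have hp := poin (fun j J => s * (b j J - a i J)) (fun j => ((q j : ℝ) : ℂ) * (U i j * x j))
  have hre : ∀ j l, (conj (((q j : ℝ) : ℂ) * (U i j * x j)) * (((q l : ℝ) : ℂ) * (U i l * x l))).re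
      = q j * q l * (conj (U i j * x j) * (U i l * x l)).re := by
    intro j l
    have : conj (((q j : ℝ) : ℂ) * (U i j * x j)) * (((q l : ℝ) : ℂ) * (U i l * x l))
        = ((q j * q l : ℝ) : ℂ) * (conj (U i j * x j) * (U i l * x l)) := by
      rw [map_mul, conj_ofReal]; push_cast; ring
    rw [this, re_ofReal_mul]
  have hn : ‖∑ j, ((q j : ℝ) : ℂ) * U i j * x j‖ ^ 2
      = ∑ j, ∑ l, q j * q l * (conj (U i j * x j) * (U i l * x l)).re := by
    have : ∑ j, ((q j : ℝ) : ℂ) * U i j * x j = ∑ j, ((q j : ℝ) : ℂ) * (U i j * x j) :=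
      sum_congr rfl fun j _ => by ring
    rw [this, norm_sq_sum]
    exact sum_congr rfl fun j _ => sum_congr rfl fun l _ => hre j l
  rw [hn, sub_le_iff_le_add, ← sub_nonpos]
  refine le_trans (le_of_eq ?_) hp
  rw [← sum_add_distrib, ← sum_sub_distrib]
  refine sum_congr rfl fun j _ => ?_
  rw [← sum_add_distrib, ← sum_sub_distrib]
  refine sum_congr rfl fun l _ => ?_
  rw [hre, hk, ← hzz]
  simp only [hz]
  ring

/-- **Main inequality.** `U` has orthonormal columns, the tuple `((a_i^J - b_j^J) U_ij)` has norm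
at most `ε`, `M_ij = exp (-s² |a_i - b_j|² / 2) U_ij`: then `|M x|² ≥ (1 - s² ε²) |x|²`. -/
theorem lower (U : ι' → ι → ℂ) (hU : ∀ j l, ∑ i, conj (U i j) * U i l = if j = l then 1 else 0)
    (a : ι' → κ → ℝ) (b : ι → κ → ℝ) (ε : ℝ)
    (hε : ∀ x : ι → ℂ, ∑ i, ∑ J, ‖∑ j, ((a i J - b j J : ℝ) : ℂ) * U i j * x j‖ ^ 2
      ≤ ε ^ 2 * ∑ j, ‖x j‖ ^ 2) (s : ℝ) (x : ι → ℂ) :
    (1 - s ^ 2 * ε ^ 2) * ∑ j, ‖x j‖ ^ 2
      ≤ ∑ i, ‖∑ j, ((Real.exp (-(s ^ 2 * ∑ J, (a i J - b j J) ^ 2) / 2) : ℝ) : ℂ) *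
        U i j * x j‖ ^ 2 := by
  simp only [q_symm a b s]
  set k : ι → ι → ℝ := fun j l => Real.exp (-(s ^ 2 * ∑ J, (b j J - b l J) ^ 2) / 2) with hk
  have hsum := sum_le_sum fun i (_ : i ∈ (univ : Finset ι')) => row U a b s x i
  refine le_trans ?_ hsum
  rw [sum_sub_distrib]
  -- first part
  have h1 : ∑ i, ∑ j, ∑ l, (conj (U i j * x j) * (U i l * x l)).re * k j l = ∑ j, ‖x j‖ ^ 2 := by
    have e1 : ∑ i, ∑ j, ∑ l, (conj (U i j * x j) * (U i l * x l)).re * k j l
        = ∑ j, ∑ l, ∑ i, (conj (U i j * x j) * (U i l * x l)).re * k j l :=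
      ((sum_congr rfl fun j _ => sum_comm).trans sum_comm).symm
    rw [e1]
    refine sum_congr rfl fun j _ => ?_
    have e2 : ∀ l, ∑ i, (conj (U i j * x j) * (U i l * x l)).re * k j l
        = if j = l then ‖x j‖ ^ 2 else 0 := by
      intro l
      rw [← sum_mul, ← re_sum]
      have : ∑ i, conj (U i j * x j) * (U i l * x l)
          = (∑ i, conj (U i j) * U i l) * (conj (x j) * x l) := by
        rw [sum_mul]; refine sum_congr rfl fun i _ => ?_
        rw [map_mul]; ring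
      rw [this, hU]
      by_cases hjl : j = l
      · subst hjl
        simp only [if_true, one_mul]
        rw [← normSq_eq_conj_mul_self, ofReal_re, normSq_eq_norm_sq]
        simp [hk]
      · simp [hjl]
    simp only [e2, sum_ite_eq, mem_univ, if_true]
  -- second part
  have h2 : ∑ i, ∑ j, ∑ l, (conj (U i j * x j) * (U i l * x l)).re *
      (s ^ 2 * ∑ J, (b j J - a i J) * (b l J - a i J)) * k j l
      ≤ s ^ 2 * (ε ^ 2 * ∑ j, ‖x j‖ ^ 2) := by
    set G : ι → ι → ℂ := fun j l => ∑ i, ∑ J,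
      conj (((a i J - b j J : ℝ) : ℂ) * U i j) * (((a i J - b l J : ℝ) : ℂ) * U i l) with hG
    have hGy : ∀ y : ι → ℂ, ∑ j, ∑ l, ent G y j l
        = ∑ i, ∑ J, ‖∑ j, ((a i J - b j J : ℝ) : ℂ) * U i j * y j‖ ^ 2 := by
      intro y
      have e : ∀ i J, ‖∑ j, ((a i J - b j J : ℝ) : ℂ) * U i j * y j‖ ^ 2
          = ∑ j, ∑ l, (conj (((a i J - b j J : ℝ) : ℂ) * U i j * y j) *
            (((a i J - b l J : ℝ) : ℂ) * U i l * y l)).re := fun i J => norm_sq_sum _
      simp only [e]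
      have e1 : ∀ i, ∑ J, ∑ j, ∑ l, (conj (((a i J - b j J : ℝ) : ℂ) * U i j * y j) *
            (((a i J - b l J : ℝ) : ℂ) * U i l * y l)).re
          = ∑ j, ∑ l, ∑ J, (conj (((a i J - b j J : ℝ) : ℂ) * U i j * y j) *
            (((a i J - b l J : ℝ) : ℂ) * U i l * y l)).re := fun i =>
        ((sum_congr rfl fun j _ => sum_comm).trans sum_comm).symm
      simp only [e1]
      rw [((sum_congr rfl fun j _ => sum_comm).trans sum_comm).symm]
      refine sum_congr rfl fun j _ => sum_congr rfl fun l _ => ?_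
      unfold ent
      simp only [hG]
      rw [mul_sum, re_sum]
      refine sum_congr rfl fun i _ => ?_
      rw [mul_sum, re_sum]
      refine sum_congr rfl fun J _ => ?_
      congr 1
      simp only [map_mul]
      ring
    have hGle : ∀ y : ι → ℂ, ∑ j, ∑ l, ent G y j l ≤ ∑ j, (fun _ => ε ^ 2) j * ‖y j‖ ^ 2 := by
      intro y
      rw [hGy, ← mul_sum]
      exact hε y
    set r : ι → ℝ := fun j => Real.exp (-(s ^ 2 * ∑ J, b j J ^ 2) / 2) with hr
    have hkr : ∀ j l, k j l = r j * r l * Real.exp (dotp (fun j J => s * b j J) j l) :=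
      fun j l => gk b s j l
    have hs := schur_series G (fun _ => ε ^ 2) hGle (fun j J => s * b j J) _ exp_coeff _ hasSum_exp'
      (fun j => ((r j : ℝ) : ℂ) * x j)
    have hs2 : ∑ j, ε ^ 2 * ‖((r j : ℝ) : ℂ) * x j‖ ^ 2 *
        Real.exp (dotp (fun j J => s * b j J) j j) = ε ^ 2 * ∑ j, ‖x j‖ ^ 2 := by
      rw [mul_sum]
      refine sum_congr rfl fun j _ => ?_
      rw [norm_mul, norm_real, mul_pow, Real.norm_eq_abs, sq_abs]
      have : k j j = 1 := by simp [hk]
      rw [hkr] at this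
      calc ε ^ 2 * (r j ^ 2 * ‖x j‖ ^ 2) * Real.exp (dotp (fun j J => s * b j J) j j)
          = ε ^ 2 * ‖x j‖ ^ 2 * (r j * r j * Real.exp (dotp (fun j J => s * b j J) j j)) := by ring
        _ = _ := by rw [this]; ring
    rw [hs2] at hs
    have hs3 := mul_le_mul_of_nonneg_left hs (sq_nonneg s)
    refine le_trans (le_of_eq ?_) hs3
    have e1 : ∑ i, ∑ j, ∑ l, (conj (U i j * x j) * (U i l * x l)).re *
        (s ^ 2 * ∑ J, (b j J - a i J) * (b l J - a i J)) * k j l
        = ∑ j, ∑ l, ∑ i, (conj (U i j * x j) * (U i l * x l)).re *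
        (s ^ 2 * ∑ J, (b j J - a i J) * (b l J - a i J)) * k j l :=
      ((sum_congr rfl fun j _ => sum_comm).trans sum_comm).symm
    rw [e1, mul_sum]
    refine sum_congr rfl fun j _ => ?_
    rw [mul_sum]
    refine sum_congr rfl fun l _ => ?_
    rw [ent_smul G x r, hkr]
    unfold ent
    simp only [hG]
    rw [mul_sum, re_sum, mul_sum, sum_mul, mul_sum]
    refine sum_congr rfl fun i _ => ?_
    have : (conj (x j) * x l * ∑ J, conj (((a i J - b j J : ℝ) : ℂ) * U i j) *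
        (((a i J - b l J : ℝ) : ℂ) * U i l)).re
        = (conj (U i j * x j) * (U i l * x l)).re * ∑ J, (b j J - a i J) * (b l J - a i J) := by
      rw [mul_sum, re_sum, mul_sum]
      refine sum_congr rfl fun J _ => ?_
      have e : conj (x j) * x l * (conj (((a i J - b j J : ℝ) : ℂ) * U i j) *
          (((a i J - b l J : ℝ) : ℂ) * U i l))
          = (((b j J - a i J) * (b l J - a i J) : ℝ) : ℂ) *
            (conj (U i j * x j) * (U i l * x l)) := by
        simp only [map_mul, conj_ofReal]; push_cast; ring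
      rw [e, re_ofReal_mul]; ring
    rw [this]; ring
  rw [h1]
  nlinarith [h2]

end

end Pool.Agent.KS6_97.SV
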